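import Mathlib

/-! Chain covers of finite posets, thinning of digraphs, and two counting estimates. -/

set_option autoImplicit false

namespace Pool.Agent.P.MP_b9c629_co

open Finset

/-- Pairwise incomparable elements. -/
def Inc {α : Type} [LE α] (T : Finset α) : Prop := ∀ a ∈ T, ∀ b ∈ T, a ≠ b → ¬ a ≤ b

theorem chain_cover {α : Type} [PartialOrder α] [DecidableEq α] (S : Finset α) :
    ∀ w : ℕ, (∀ T ⊆ S, Inc T → T.card ≤ w) →
      ∃ c : α → ℕ, (∀ a ∈ S, c a < w) ∧ ∀ a ∈ S, ∀ b ∈ S, c a = c b → a ≤ b ∨ b ≤ a := by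
  classical
  induction S using Finset.strongInduction with
  | H S ih =>
  intro w h
  rcases S.eq_empty_or_nonempty with rfl | hne
  · exact ⟨fun _ => 0, by simp, by simp⟩
  obtain ⟨a, ha, hmax⟩ := S.exists_maximal hne
  obtain ⟨v, rfl⟩ : ∃ v, w = v + 1 :=
    ⟨w - 1, by have := h {a} (by simpa) (by simp [Inc]); simp at this; omega⟩
  have key : ∃ K : Finset α, a ∈ K ∧ (∀ x ∈ K, ∀ y ∈ K, x ≤ y ∨ y ≤ x) ∧
      ∀ T ⊆ S \ K, Inc T → T.card ≤ v := by
    by_contra! hc
    obtain ⟨T0, h0, h1, h2⟩ := hc {a} (by simp) (by simp)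
    rw [sdiff_singleton_eq_erase] at h0
    obtain ⟨c, c1, c2⟩ := ih _ (erase_ssubset ha) (v + 1) fun T hT =>
      h T (hT.trans (erase_subset _ _))
    have surj : ∀ T ⊆ S.erase a, Inc T → v < T.card → ∀ i < v + 1, ∃ y ∈ T, c y = i := by
      intro T hT hI hv i hi
      obtain ⟨y, hy, e⟩ := surj_on_of_inj_on_of_card_le (s := T) (t := range (v + 1))
        (fun y _ => c y) (fun y hy => mem_range.2 (c1 y (hT hy))) (fun y z hy hz e => by
          by_contra hn
          exact (c2 y (hT hy) z (hT hz) e).elim (hI y hy z hz hn) (hI z hz y hy (Ne.symm hn)))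
        (by simpa using hv) i (mem_range.2 hi)
      exact ⟨y, hy, e.symm⟩
    have hx : ∀ i < v + 1, ∃ x, ∃ T ⊆ S.erase a, Inc T ∧ v < T.card ∧ x ∈ T ∧ c x = i ∧
        ∀ T' ⊆ S.erase a, Inc T' → v < T'.card → ∀ y ∈ T', c y = i → y ≤ x := by
      intro i hi
      obtain ⟨y, hy, e⟩ := surj T0 h0 h1 h2 i hi
      obtain ⟨x, hx, hm⟩ := ((S.erase a).filter fun x => c x = i ∧
        ∃ T ⊆ S.erase a, Inc T ∧ v < T.card ∧ x ∈ T).exists_maximal
          ⟨y, mem_filter.2 ⟨h0 hy, e, T0, h0, h1, h2, hy⟩⟩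
      obtain ⟨x1, x2, T, t1, t2, t3, t4⟩ := mem_filter.1 hx
      refine ⟨x, T, t1, t2, t3, t4, x2, fun T' s1 s2 s3 y hy e => ?_⟩
      exact (c2 y (s1 hy) x x1 (e.trans x2.symm)).elim id
        (hm (mem_filter.2 ⟨s1 hy, e, T', s1, s2, s3, hy⟩))
    have : Nonempty α := ⟨a⟩
    choose! x T t1 t2 t3 t4 t5 t6 using hx
    by_cases hi : ∃ i < v + 1, x i ≤ a
    · obtain ⟨i, hi, hia⟩ := hi
      obtain ⟨T', s1, s2, s3⟩ := hc (insert a ((S.erase a).filter fun z => c z = i ∧ z ≤ x i))
        (by simp) fun y hy z hz => by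
          simp only [mem_insert, mem_filter] at hy hz
          rcases hy with rfl | hy <;> rcases hz with rfl | hz
          exacts [.inl le_rfl, .inr (hz.2.2.trans hia), .inl (hy.2.2.trans hia),
            c2 y hy.1 z hz.1 (hy.2.1.trans hz.2.1.symm)]
      have s4 : T' ⊆ S.erase a := fun y hy => by
        have := s1 hy
        simp only [mem_sdiff, mem_insert, not_or] at this
        exact mem_erase.2 ⟨this.2.1, this.1⟩
      obtain ⟨y, hy, e⟩ := surj T' s4 s2 s3 i hi
      exact (mem_sdiff.1 (s1 hy)).2 (mem_insert_of_mem (mem_filter.2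
        ⟨s4 hy, e, t6 i hi T' s4 s2 s3 y hy e⟩))
    · push Not at hi
      have hS : ∀ i < v + 1, x i ∈ S.erase a := fun i hi => t1 i hi (t4 i hi)
      have := h (insert a ((range (v + 1)).image x)) (by
        simpa [insert_subset_iff, ha, image_subset_iff] using fun i hi =>
          mem_of_mem_erase (hS i (by omega))) fun y hy z hz hn hle => by
        simp only [mem_insert, mem_image, mem_range] at hy hz
        rcases hy with rfl | ⟨i, hi', rfl⟩ <;> rcases hz with rfl | ⟨j, hj, rfl⟩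
        · exact hn rfl
        · exact hi j hj (hmax (mem_of_mem_erase (hS j hj)) hle)
        · exact hi i hi' hle
        · obtain ⟨y, hy, e⟩ := surj _ (t1 j hj) (t2 j hj) (t3 j hj) i hi'
          have h3 := t6 i hi' _ (t1 j hj) (t2 j hj) (t3 j hj) y hy e
          by_cases h4 : y = x j
          · exact hn (by rw [← e, h4, t5 j hj])
          · exact t2 j hj y hy _ (t4 j hj) h4 (h3.trans hle)
      rw [card_insert_of_notMem (by
        simpa using fun i hi e => (mem_erase.1 (hS i (by omega))).1 e), card_image_of_injOn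
          fun i hi j hj e => by
            rw [← t5 i (by simpa using hi), e, t5 j (by simpa using hj)], card_range] at this
      omega
  obtain ⟨K, k1, k2, k3⟩ := key
  obtain ⟨c, c1, c2⟩ := ih (S \ K) ⟨sdiff_subset, fun hs => (mem_sdiff.1 (hs ha)).2 k1⟩ v k3
  refine ⟨fun z => if z ∈ K then v else c z, fun z hz => ?_, fun y hy z hz e => ?_⟩
  · have := fun h => c1 z (mem_sdiff.2 ⟨hz, h⟩)
    grind
  · have := fun h => c1 z (mem_sdiff.2 ⟨hz, h⟩)
    have := fun h => c1 y (mem_sdiff.2 ⟨hy, h⟩)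
    have := fun h h' => c2 y (mem_sdiff.2 ⟨hy, h⟩) z (mem_sdiff.2 ⟨hz, h'⟩)
    have := k2 y
    grind

theorem thin {α : Type} [DecidableEq α] (E : α → α → Prop) [DecidableRel E] (d : ℕ)
    (T : Finset α) : (∀ i ∈ T, (T.filter (E i)).card ≤ d) →
      ∃ T' ⊆ T, T.card ≤ (2 * d + 1) * T'.card ∧ ∀ i ∈ T', ∀ j ∈ T', i ≠ j → ¬ E i j := by
  induction T using Finset.strongInduction with
  | H T ih =>
  intro h
  rcases T.eq_empty_or_nonempty with rfl | hne
  · exact ⟨∅, by simp, by simp, by simp⟩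
  obtain ⟨i, hi, h1⟩ := exists_le_of_sum_le hne (f := fun j => (T.filter (E · j)).card)
    (g := fun _ => d) (by
      simp only [card_filter]
      rw [sum_comm]
      exact sum_le_sum fun i hi => by simpa only [card_filter] using h i hi)
  obtain ⟨T', t1, t2, t3⟩ := ih (T \ insert i (T.filter (E i) ∪ T.filter (E · i)))
    ⟨sdiff_subset, fun hs => by simpa using hs hi⟩ fun j hj =>
      (card_le_card (filter_subset_filter _ sdiff_subset)).trans (h j (mem_sdiff.1 hj).1)
  have t4 : ∀ j ∈ T', j ∈ T ∧ j ≠ i ∧ ¬ E i j ∧ ¬ E j i := fun j hj => by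
    have := t1 hj
    simp only [mem_sdiff, mem_insert, mem_union, mem_filter] at this
    tauto
  refine ⟨insert i T', insert_subset hi fun j hj => (t4 j hj).1, ?_, fun y hy z hz hn => ?_⟩
  · have a1 := le_card_sdiff (insert i (T.filter (E i) ∪ T.filter (E · i))) T
    have a2 := card_insert_le i (T.filter (E i) ∪ T.filter (E · i))
    have a3 := card_union_le (T.filter (E i)) (T.filter (E · i))
    have a4 := h i hi
    rw [card_insert_of_notMem fun hh => (t4 i hh).2.1 rfl, mul_add]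
    omega
  · rw [mem_insert] at hy hz
    rcases hy with rfl | hy <;> rcases hz with rfl | hz
    exacts [absurd rfl hn, (t4 z hz).2.2.1, (t4 y hy).2.2.2, t3 y hy z hz hn]

theorem choose_sub_le (n s M : ℕ) (hs : 1 ≤ s) :
    (n - M).choose s * n ^ M ≤ n.choose s * (n - s) ^ M := by
  induction M with
  | zero => simp
  | succ M ih =>
    rcases Nat.eq_zero_or_pos (n - M) with h | h
    · simp [show n - (M + 1) = 0 by omega, Nat.choose_eq_zero_of_lt hs]
    have h1 := Nat.choose_mul_succ_eq (n - (M + 1)) s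
    rw [show n - (M + 1) + 1 = n - M by omega] at h1
    have h2 : (n - M - s) * n ≤ (n - s) * (n - M) := by
      rw [Nat.sub_mul, Nat.sub_mul n s, mul_comm n]
      exact Nat.sub_le_sub_left (Nat.mul_le_mul_left s (Nat.sub_le n M)) _
    have h3 : (n - (M + 1)).choose s * n ≤ (n - M).choose s * (n - s) :=
      Nat.le_of_mul_le_mul_right (by
        rw [mul_right_comm, h1, mul_assoc, mul_assoc]
        exact Nat.mul_le_mul_left _ h2) h
    calc _ = (n - (M + 1)).choose s * n * n ^ M := by ring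
      _ ≤ (n - M).choose s * n ^ M * (n - s) := by rw [mul_right_comm _ _ (n - s)]; gcongr
      _ ≤ n.choose s * (n - s) ^ M * (n - s) := by gcongr
      _ = _ := by ring

theorem numeric (n : ℕ) (hn : 333 ≤ n) :
    4 * (n.choose (n / 160200 + 1) ^ 2 *
      (n - 43 * (n / 160200 + 1)).choose (n * 59 / 125 + 1)) < n.choose (n * 59 / 125 + 1) := by
  obtain ⟨t, ht⟩ : ∃ t, t = n / 160200 + 1 := ⟨_, rfl⟩
  obtain ⟨s, hs⟩ : ∃ s, s = n * 59 / 125 + 1 := ⟨_, rfl⟩
  rw [← ht, ← hs]
  have hn0 : (0 : ℝ) < n := by exact_mod_cast (by omega : 0 < n)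
  have h0 : (0 : ℝ) < n.choose s := by exact_mod_cast Nat.choose_pos (by omega)
  have h1 : ((n - 43 * t).choose s : ℝ) ≤ n.choose s * (66 / 125) ^ (43 * t) := by
    have a1 : ((n - s : ℕ) : ℝ) * 125 ≤ 66 * n := by exact_mod_cast (by omega : (n - s) * 125 ≤ _)
    have a2 : ((n - 43 * t).choose s : ℝ) * n ^ (43 * t) ≤ n.choose s * (n - s : ℕ) ^ (43 * t) := by
      exact_mod_cast choose_sub_le n s (43 * t) (by omega)
    refine le_of_mul_le_mul_right (a2.trans ?_) (pow_pos hn0 _)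
    rw [mul_assoc, ← mul_pow]
    gcongr
    linarith
  have h2 : (n.choose t : ℝ) ≤ (160200 * 2.7183) ^ t := by
    have a1 : (n : ℝ) ≤ 160200 * t := by exact_mod_cast (by omega : n ≤ 160200 * t)
    calc (n.choose t : ℝ) ≤ n ^ t / t.factorial := Nat.choose_le_pow_div t n
      _ ≤ 160200 ^ t * (t ^ t / t.factorial) := by rw [← mul_div_assoc, ← mul_pow]; gcongr
      _ ≤ 160200 ^ t * Real.exp 1 ^ t := by
        rw [← Real.exp_nat_mul, mul_one]
        gcongr
        exact Real.pow_div_factorial_le_exp _ t.cast_nonneg t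
      _ ≤ _ := by
        rw [mul_pow]
        gcongr
        linarith [Real.exp_one_lt_d9]
  have h3 : ((160200 * 2.7183) ^ 2 * (66 / 125) ^ 43 : ℝ) ^ t ≤
      (160200 * 2.7183) ^ 2 * (66 / 125) ^ 43 :=
    pow_le_of_le_one (by positivity) (by norm_num) (by omega)
  have h4 : (4 * (n.choose t ^ 2 * (n - 43 * t).choose s) : ℝ) < n.choose s :=
    calc _ ≤ 4 * (((160200 * 2.7183) ^ t) ^ 2 * (n.choose s * (66 / 125) ^ (43 * t)) : ℝ) := by
          gcongr
      _ = 4 * ((160200 * 2.7183) ^ 2 * (66 / 125) ^ 43 : ℝ) ^ t * n.choose s := by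
          rw [mul_pow (_ ^ 2 : ℝ), ← pow_mul, ← pow_mul, ← pow_mul, mul_comm 2 t]
          ring
      _ ≤ 4 * ((160200 * 2.7183) ^ 2 * (66 / 125) ^ 43 : ℝ) * n.choose s := by gcongr
      _ < _ := mul_lt_of_lt_one_left h0 (by norm_num)
  exact_mod_cast h4

end Pool.Agent.P.MP_b9c629_co
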