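import Mathlib

set_option autoImplicit false

namespace Pool.Agent.P.MP_b9c629_co

open Finset

/-- Linear programming duality for finite set systems, from integral packings to a fractional
cover. -/
theorem lp_cover {Z G : Type*} [Fintype Z] [Fintype G] (r : Z → G → Prop)
    [∀ z g, Decidable (r z g)] (a : ℝ) (ha : 0 ≤ a)
    (h : ∀ (m : G → ℕ) (D : ℕ), (∀ z, ∑ B with r z B, m B ≤ D) → ((∑ B, m B : ℕ) : ℝ) ≤ a * D) :
    ∃ w : Z → ℝ, (∀ z, 0 ≤ w z) ∧ ∑ z, w z ≤ a ∧ ∀ B, 1 ≤ ∑ z with r z B, w z := by
  classical
  by_contra hcon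
  push Not at hcon
  let K : Set (Z → ℝ) := {w | (∀ z, 0 ≤ w z) ∧ ∑ z, w z ≤ a}
  let L : (Z → ℝ) →ₗ[ℝ] (G → ℝ) :=
    { toFun := fun w B => ∑ z with r z B, w z
      map_add' := fun w w' => by
        funext B
        simp [Finset.sum_add_distrib]
      map_smul' := fun c w => by
        funext B
        simp [Finset.mul_sum] }
  have hKconv : Convex ℝ K := by
    intro x hx y hy s t hs ht hst
    refine ⟨fun z => ?_, ?_⟩
    · have := hx.1 z
      have := hy.1 z
      simp only [Pi.add_apply, Pi.smul_apply, smul_eq_mul]
      positivity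
    · simp only [Pi.add_apply, Pi.smul_apply, smul_eq_mul, Finset.sum_add_distrib,
        ← Finset.mul_sum]
      have h1 := mul_le_mul_of_nonneg_left hx.2 hs
      have h2 := mul_le_mul_of_nonneg_left hy.2 ht
      have : s * a + t * a = a := by rw [← add_mul, hst, one_mul]
      linarith
  have hKclosed : IsClosed K := by
    have h1 : IsClosed {w : Z → ℝ | ∀ z, 0 ≤ w z} := by
      rw [Set.ofPred_forall]
      exact isClosed_iInter fun z => isClosed_le continuous_const (continuous_apply z)
    have h2 : IsClosed {w : Z → ℝ | ∑ z, w z ≤ a} :=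
      isClosed_le (continuous_finsetSum _ fun z _ => continuous_apply z) continuous_const
    exact h1.inter h2
  have hKcomp : IsCompact K := by
    refine (isCompact_Icc (a := (0 : Z → ℝ)) (b := fun _ => a)).of_isClosed_subset hKclosed ?_
    intro w hw
    refine ⟨fun z => hw.1 z, fun z => ?_⟩
    exact (Finset.single_le_sum (fun z _ => hw.1 z) (Finset.mem_univ z)).trans hw.2
  have hLc : Continuous L := L.continuous_of_finiteDimensional
  let U : Set (G → ℝ) := {v | ∀ B, 1 ≤ v B}
  have hUconv : Convex ℝ U := by
    intro x hx y hy s t hs ht hst B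
    have h1 := mul_le_mul_of_nonneg_left (hx B) hs
    have h2 := mul_le_mul_of_nonneg_left (hy B) ht
    simp only [Pi.add_apply, Pi.smul_apply, smul_eq_mul]
    linarith
  have hUclosed : IsClosed U := by
    show IsClosed {v : G → ℝ | ∀ B, 1 ≤ v B}
    rw [Set.ofPred_forall]
    exact isClosed_iInter fun B => isClosed_le continuous_const (continuous_apply B)
  have hdisj : Disjoint (L '' K) U := by
    rw [Set.disjoint_left]
    rintro v ⟨w, hw, rfl⟩ hv
    obtain ⟨B, hB⟩ := hcon w hw.1 hw.2
    exact absurd (hv B) (not_le.2 hB)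
  obtain ⟨f, u, v, hfu, huv, hfv⟩ :=
    geometric_hahn_banach_compact_closed (hKconv.linear_image L) (hKcomp.image hLc) hUconv hUclosed
      hdisj
  let y : G → ℝ := fun B => f (Pi.single B 1)
  have hf : ∀ x : G → ℝ, f x = ∑ B, x B * y B := by
    intro x
    conv_lhs => rw [pi_eq_sum_univ' x]
    rw [map_sum]
    refine Finset.sum_congr rfl fun B _ => ?_
    rw [map_smul, smul_eq_mul]
  have hy : ∀ B, 0 ≤ y B := by
    intro B
    by_contra hneg
    push Not at hneg
    have h1 := hfv (fun _ => 1) (fun _ => le_rfl)
    let t : ℝ := (f (fun _ => 1) - v) / (-y B)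
    have ht : 0 ≤ t := div_nonneg (by linarith) (by linarith)
    have h2 := hfv ((fun _ => 1) + t • Pi.single B 1) (fun B' => by
      simp only [Pi.add_apply, Pi.smul_apply, smul_eq_mul]
      have : (0 : ℝ) ≤ (Pi.single B (1 : ℝ) : G → ℝ) B' := by
        by_cases hB : B' = B
        · subst hB; simp
        · simp [Pi.single_eq_of_ne hB]
      nlinarith [mul_nonneg ht this])
    rw [map_add, map_smul, smul_eq_mul] at h2
    have h3 : t * y B = -(f (fun _ => 1) - v) := by
      have : y B ≠ 0 := ne_of_lt hneg
      simp only [t]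
      field_simp
    change v < f (fun _ => 1) + t * y B at h2
    linarith
  have hY : v < ∑ B, y B := by
    have h1 := hfv (fun _ => 1) (fun _ => le_rfl)
    rw [hf] at h1
    simpa using h1
  have hu0 : 0 < u := by
    have := hfu (L 0) ⟨0, ⟨fun _ => le_rfl, by simpa using ha⟩, rfl⟩
    simpa using this
  have hcov : ∀ z, a * ∑ B with r z B, y B < u := by
    intro z
    have := hfu (L (Pi.single z a)) ⟨Pi.single z a, ⟨fun z' => by
      by_cases hz : z' = z
      · subst hz; simpa using ha
      · simp [Pi.single_eq_of_ne hz], by simp⟩, rfl⟩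
    rw [hf] at this
    have e : ∑ B, (L (Pi.single z a)) B * y B = a * ∑ B with r z B, y B := by
      rw [Finset.mul_sum, Finset.sum_filter]
      refine Finset.sum_congr rfl fun B _ => ?_
      have : (L (Pi.single z a)) B = if r z B then a else 0 := by
        show ∑ z' with r z' B, (Pi.single z a : Z → ℝ) z' = _
        rw [Finset.sum_filter]
        rw [Finset.sum_eq_single z]
        · simp
        · intro b _ hb
          simp [Pi.single_eq_of_ne hb]
        · simp
      rw [this]
      split_ifs <;> simp
    rwa [e] at this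
  -- integral approximation
  set Y := ∑ B, y B with hYdef
  have hgap : 0 < Y - u := by linarith
  obtain ⟨M, hM⟩ := exists_nat_gt (a * (Fintype.card G) / (Y - u))
  have hM' : a * (Fintype.card G) < M * (Y - u) := by
    rwa [div_lt_iff₀ hgap] at hM
  let m : G → ℕ := fun B => ⌈(M : ℝ) * y B⌉₊
  let D : ℕ := Finset.univ.sup fun z => ∑ B with r z B, m B
  have hD : ∀ z, ∑ B with r z B, m B ≤ D := fun z =>
    Finset.le_sup (f := fun z => ∑ B with r z B, m B) (Finset.mem_univ z)
  have h1 := h m D hD
  have h2 : (M : ℝ) * Y ≤ ((∑ B, m B : ℕ) : ℝ) := by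
    rw [hYdef, Finset.mul_sum]
    push_cast
    exact Finset.sum_le_sum fun B _ => Nat.le_ceil _
  have hMn : (0 : ℝ) ≤ M := Nat.cast_nonneg M
  have h3 : a * D ≤ M * u + a * Fintype.card G := by
    rcases isEmpty_or_nonempty Z with hZ | hZ
    · have : D = 0 := by simp [D]
      rw [this]
      simp only [Nat.cast_zero, mul_zero]
      positivity
    · obtain ⟨z, -, hz⟩ := Finset.exists_mem_eq_sup (Finset.univ : Finset Z) Finset.univ_nonempty
        (fun z => ∑ B with r z B, m B)
      have hz' : D = ∑ B with r z B, m B := hz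
      have h4 : (D : ℝ) ≤ M * (∑ B with r z B, y B) + Fintype.card G := by
        rw [hz']
        push_cast
        calc ∑ B with r z B, (m B : ℝ) ≤ ∑ B with r z B, ((M : ℝ) * y B + 1) :=
              Finset.sum_le_sum fun B _ => (Nat.ceil_lt_add_one (mul_nonneg hMn (hy B))).le
          _ = M * (∑ B with r z B, y B) + ((Finset.univ.filter fun B => r z B).card : ℝ) := by
              rw [Finset.sum_add_distrib, Finset.mul_sum]
              simp
          _ ≤ _ := by
              have : (Finset.univ.filter fun B => r z B).card ≤ Fintype.card G :=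
                Finset.card_le_univ _
              have : ((Finset.univ.filter fun B => r z B).card : ℝ) ≤ Fintype.card G := by
                exact_mod_cast this
              linarith
      have h5 := mul_le_mul_of_nonneg_left h4 ha
      have h6 := mul_le_mul_of_nonneg_left (hcov z).le hMn
      nlinarith
  nlinarith

end Pool.Agent.P.MP_b9c629_co
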