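import Mathlib
import Pool.Agent.P.MP_b9c629_co.LP

set_option autoImplicit false
set_option linter.unusedSectionVars false

namespace Pool.Agent.P.MP_b9c629_co

open Finset

variable {ι : Type} [Fintype ι] [DecidableEq ι]

/-- The location `z` (abscissa of `z.1`, ordinate of `z.2`) lies in the box spanned by `p`, `q`. -/
def InBox (ξ η : ι → ℤ) (p q : ι) (z : ι × ι) : Prop :=
  ξ p ≤ ξ z.1 ∧ ξ z.1 ≤ ξ q ∧ η p ≤ η z.2 ∧ η z.2 ≤ η q

instance (ξ η : ι → ℤ) (p q : ι) (z : ι × ι) : Decidable (InBox ξ η p q z) := by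
  unfold InBox; infer_instance

/-- The box of `p, q` is at least as wide and at most as tall as the box of `p', q'`. -/
def CR (ξ η : ι → ℤ) (p q p' q' : ι) : Prop :=
  ξ p ≤ ξ p' ∧ ξ q' ≤ ξ q ∧ η p' ≤ η p ∧ η q ≤ η q'

instance (ξ η : ι → ℤ) (p q p' q' : ι) : Decidable (CR ξ η p q p' q') := by
  unfold CR; infer_instance

/-- A good labelled box `(p, g, q)`. -/
def Good (ξ η : ι → ℤ) (o : ι → Bool) (t : ι → Fin 4) (e : ι × ι × ι) : Prop :=
  t e.1 = 0 ∧ t e.2.1 = 2 ∧ t e.2.2 = 1 ∧ InBox ξ η e.1 e.2.2 (e.2.1, e.2.1) ∧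
    ∀ i, InBox ξ η e.1 e.2.2 (i, i) → o i = false ∧ (t i = 0 → i = e.1) ∧ (t i = 1 → i = e.2.2)

instance (ξ η : ι → ℤ) (o : ι → Bool) (t : ι → Fin 4) (e : ι × ι × ι) :
    Decidable (Good ξ η o t e) := by
  unfold Good; infer_instance

/-- Pairwise non-crossing labelled boxes with distinct labels. -/
def Anti (ξ η : ι → ℤ) (S : Finset (ι × ι × ι)) : Prop :=
  ∀ e ∈ S, ∀ e' ∈ S, e ≠ e' → ¬ CR ξ η e.1 e.2.2 e'.1 e'.2.2 ∧ e.2.1 ≠ e'.2.1

instance (ξ η : ι → ℤ) (S : Finset (ι × ι × ι)) : Decidable (Anti ξ η S) := by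
  unfold Anti; infer_instance

/-- Largest size of a non-crossing family of good labelled boxes with distinct labels. -/
def alpha (ξ η : ι → ℤ) (o : ι → Bool) (t : ι → Fin 4) : ℕ :=
  (((univ.filter (Good ξ η o t)).powerset).filter (Anti ξ η)).sup card

theorem le_alpha {ξ η : ι → ℤ} {o : ι → Bool} {t : ι → Fin 4} {S : Finset (ι × ι × ι)}
    (hS : ∀ e ∈ S, Good ξ η o t e) (hA : Anti ξ η S) : S.card ≤ alpha ξ η o t := by
  refine Finset.le_sup (f := card) ?_
  simp only [mem_filter, mem_powerset]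
  exact ⟨fun e he => by simpa using hS e he, hA⟩

theorem exists_alpha (ξ η : ι → ℤ) (o : ι → Bool) (t : ι → Fin 4) :
    ∃ S : Finset (ι × ι × ι), (∀ e ∈ S, Good ξ η o t e) ∧ Anti ξ η S ∧
      S.card = alpha ξ η o t := by
  obtain ⟨S, hS, h⟩ := Finset.exists_mem_eq_sup
    (((univ.filter (Good ξ η o t)).powerset).filter (Anti ξ η))
    ⟨∅, by simp [Anti]⟩ card
  simp only [mem_filter, mem_powerset] at hS
  exact ⟨S, fun e he => by simpa using hS.1 he, hS.2, h.symm⟩

/-- Two good boxes with the same label are comparable or overlap diagonally. -/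
theorem good_cases {ξ η : ι → ℤ}
    {o : ι → Bool} {t : ι → Fin 4} {e e' : ι × ι × ι} (he : Good ξ η o t e)
    (he' : Good ξ η o t e') (hg : e.2.1 = e'.2.1) :
    CR ξ η e.1 e.2.2 e'.1 e'.2.2 ∨ CR ξ η e'.1 e'.2.2 e.1 e.2.2 ∨
      (ξ e.1 < ξ e'.1 ∧ η e'.1 < η e.1 ∧ ξ e.2.2 < ξ e'.2.2 ∧ η e'.2.2 < η e.2.2) ∨
      (ξ e'.1 < ξ e.1 ∧ η e.1 < η e'.1 ∧ ξ e'.2.2 < ξ e.2.2 ∧ η e.2.2 < η e'.2.2) := by
  obtain ⟨p, g, q⟩ := e
  obtain ⟨p', g', q'⟩ := e'
  simp only at hg
  subst hg
  obtain ⟨tp, -, tq, hb, hin⟩ := he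
  obtain ⟨tp', -, tq', hb', hin'⟩ := he'
  simp only [InBox, CR] at *
  have h1 : ¬ (ξ p ≤ ξ p' ∧ η p ≤ η p') ∨ p' = p := by
    by_cases h : ξ p ≤ ξ p' ∧ η p ≤ η p'
    · exact Or.inr ((hin p' ⟨h.1, by omega, h.2, by omega⟩).2.1 tp')
    · exact Or.inl h
  have h2 : ¬ (ξ p' ≤ ξ p ∧ η p' ≤ η p) ∨ p = p' := by
    by_cases h : ξ p' ≤ ξ p ∧ η p' ≤ η p
    · exact Or.inr ((hin' p ⟨h.1, by omega, h.2, by omega⟩).2.1 tp)
    · exact Or.inl h
  have h3 : ¬ (ξ q' ≤ ξ q ∧ η q' ≤ η q) ∨ q' = q := by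
    by_cases h : ξ q' ≤ ξ q ∧ η q' ≤ η q
    · exact Or.inr ((hin q' ⟨by omega, h.1, by omega, h.2⟩).2.2 tq')
    · exact Or.inl h
  have h4 : ¬ (ξ q ≤ ξ q' ∧ η q ≤ η q') ∨ q = q' := by
    by_cases h : ξ q ≤ ξ q' ∧ η q ≤ η q'
    · exact Or.inr ((hin' q ⟨by omega, h.1, by omega, h.2⟩).2.2 tq)
    · exact Or.inl h
  have hp : p = p' ∨ (ξ p < ξ p' ∧ η p' < η p) ∨ (ξ p' < ξ p ∧ η p < η p') := by
    by_cases h : p = p'
    · exact Or.inl h
    · have a1 := h1.resolve_right (Ne.symm h)
      have a2 := h2.resolve_right h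
      omega
  have hq : q = q' ∨ (ξ q < ξ q' ∧ η q' < η q) ∨ (ξ q' < ξ q ∧ η q < η q') := by
    by_cases h : q = q'
    · exact Or.inl h
    · have a1 := h3.resolve_right (Ne.symm h)
      have a2 := h4.resolve_right h
      omega
  rcases hp with rfl | hp
  · rcases hq with rfl | hq
    · left; omega
    · omega
  · rcases hq with rfl | hq
    · omega
    · omega

theorem good_uncross {ξ η : ι → ℤ}
    {o : ι → Bool} {t : ι → Fin 4} {p q p' q' g : ι} (he : Good ξ η o t (p, g, q))
    (he' : Good ξ η o t (p', g, q'))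
    (h : ξ p < ξ p' ∧ η p' < η p ∧ ξ q < ξ q' ∧ η q' < η q) :
    Good ξ η o t (p, g, q') ∧ Good ξ η o t (p', g, q) := by
  obtain ⟨tp, tg, tq, hb, hin⟩ := he
  obtain ⟨tp', -, tq', hb', hin'⟩ := he'
  simp only [InBox] at *
  refine ⟨⟨tp, tg, tq', ?_, ?_⟩, ⟨tp', tg, tq, ?_, ?_⟩⟩
  · simp only [InBox]; omega
  · intro i hi
    simp only [InBox] at hi ⊢
    by_cases hx : ξ i ≤ ξ q
    · have := hin i ⟨hi.1, hx, hi.2.2.1, by omega⟩
      refine ⟨this.1, this.2.1, fun h1 => ?_⟩
      have := this.2.2 h1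
      subst this
      omega
    · have := hin' i ⟨by omega, hi.2.1, by omega, hi.2.2.2⟩
      refine ⟨this.1, fun h1 => ?_, this.2.2⟩
      have := this.2.1 h1
      subst this
      omega
  · simp only [InBox]; omega
  · intro i hi
    simp only [InBox] at hi ⊢
    by_cases hy : η p ≤ η i
    · have := hin i ⟨by omega, hi.2.1, hy, hi.2.2.2⟩
      refine ⟨this.1, fun h1 => ?_, this.2.2⟩
      have := this.2.1 h1
      subst this
      omega
    · have := hin' i ⟨hi.1, by omega, hi.2.2.1, by omega⟩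
      refine ⟨this.1, this.2.1, fun h1 => ?_⟩
      have := this.2.2 h1
      subst this
      omega

/-- Indicator of a location in a labelled box. -/
def ind (ξ η : ι → ℤ) (e : ι × ι × ι) (z : ι × ι) : ℕ := if InBox ξ η e.1 e.2.2 z then 1 else 0

theorem sum_le_of_two {J : Type} [Fintype J] [DecidableEq J] {F F' : J → ℕ} {j j' : J}
    (hj : j ≠ j') (h : ∀ k, k ≠ j → k ≠ j' → F' k = F k) (c : ℕ)
    (h2 : F' j + F' j' + c ≤ F j + F j') : ∑ k, F' k + c ≤ ∑ k, F k := by
  have e : ∀ H : J → ℕ, ∑ k, H k = H j + H j' + ∑ k ∈ (univ.erase j).erase j', H k := by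
    intro H
    rw [← Finset.add_sum_erase _ _ (mem_univ j),
      ← Finset.add_sum_erase (univ.erase j) _ (a := j') (by simp [hj.symm]), add_assoc]
  rw [e F, e F']
  have : ∑ k ∈ (univ.erase j).erase j', F' k = ∑ k ∈ (univ.erase j).erase j', F k := by
    refine Finset.sum_congr rfl fun k hk => ?_
    simp only [mem_erase] at hk
    exact h k hk.2.1 hk.1
  omega

/-- Dual Dilworth step: once equal labels force comparability. -/
theorem mirsky {ξ η : ι → ℤ} {o : ι → Bool} {t : ι → Fin 4} {J : Type} [Fintype J]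
    [DecidableEq J] (e : J → ι × ι × ι) (he : ∀ j, Good ξ η o t (e j)) (D : ℕ)
    (hD : ∀ z, ∑ j, ind ξ η (e j) z ≤ D)
    (hc : ∀ j j', (e j).2.1 = (e j').2.1 →
      CR ξ η (e j).1 (e j).2.2 (e j').1 (e j').2.2 ∨ CR ξ η (e j').1 (e j').2.2 (e j).1 (e j).2.2) :
    Fintype.card J ≤ alpha ξ η o t * D := by
  classical
  let idx : J → ℕ := fun j => (Fintype.equivFin J j : ℕ)
  have hidx : Function.Injective idx := fun a b h =>
    (Fintype.equivFin J).injective (Fin.ext h)
  let C : J → J → Prop := fun i j => CR ξ η (e i).1 (e i).2.2 (e j).1 (e j).2.2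
  let lt : J → J → Prop := fun i j => C i j ∧ (¬ C j i ∨ idx i < idx j)
  have Ctrans : ∀ a b c, C a b → C b c → C a c := by
    intro a b c h1 h2
    simp only [C, CR] at *
    omega
  have Crefl : ∀ a, C a a := by
    intro a
    simp [C, CR]
  have lttrans : ∀ a b c, lt a b → lt b c → lt a c := by
    intro a b c h1 h2
    refine ⟨Ctrans _ _ _ h1.1 h2.1, ?_⟩
    by_cases h : C c a
    · right
      have hba : C b a := Ctrans _ _ _ h2.1 h
      have hcb : C c b := Ctrans _ _ _ h h1.1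
      have := h1.2.resolve_left (not_not.2 hba)
      have := h2.2.resolve_left (not_not.2 hcb)
      omega
    · exact Or.inl h
  have ltirr : ∀ a, ¬ lt a a := by
    intro a h
    have := h.2.resolve_left (not_not.2 (Crefl a))
    omega
  have hpq : ∀ j, ξ (e j).1 ≤ ξ (e j).2.2 ∧ η (e j).1 ≤ η (e j).2.2 := by
    intro j
    have := (he j).2.2.2.1
    simp only [InBox] at this
    omega
  let cnt : J → ι → ℕ := fun j y =>
    (univ.filter fun i => (i = j ∨ lt i j) ∧ η (e i).1 ≤ η y ∧ η y ≤ η (e i).2.2).card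
  let h : J → ℕ := fun j => univ.sup (cnt j)
  have hle : ∀ j, h j ≤ D := by
    intro j
    refine Finset.sup_le fun y _ => ?_
    refine le_trans ?_ (hD ((e j).1, y))
    simp only [cnt, ind]
    rw [← Finset.card_filter]
    refine Finset.card_le_card fun i hi => ?_
    simp only [mem_filter, mem_univ, true_and] at hi ⊢
    have hC : C i j := by
      rcases hi.1 with rfl | h'
      · exact Crefl _
      · exact h'.1
    have := hpq j
    simp only [C, CR] at hC
    simp only [InBox]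
    omega
  have hpos : ∀ j, 1 ≤ h j := by
    intro j
    refine le_trans ?_ (Finset.le_sup (f := cnt j) (mem_univ (e j).1))
    refine Finset.card_pos.2 ⟨j, ?_⟩
    simp only [mem_filter, mem_univ, true_and, true_or, le_refl]
    exact (hpq j).2
  have hmono : ∀ i j, lt i j → h i < h j := by
    intro i j hij
    obtain ⟨y, -, hy⟩ := Finset.exists_mem_eq_sup (univ : Finset ι) ⟨(e i).1, mem_univ _⟩ (cnt i)
    have hy' : h i = cnt i y := hy
    have h1 := hpos i
    rw [hy'] at h1 ⊢
    obtain ⟨i0, hi0⟩ := Finset.card_pos.1 h1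
    simp only [mem_filter, mem_univ, true_and] at hi0
    have hC0 : C i0 j := by
      rcases hi0.1 with rfl | h'
      · exact hij.1
      · exact Ctrans _ _ _ h'.1 hij.1
    refine lt_of_lt_of_le ?_ (Finset.le_sup (f := cnt j) (mem_univ y))
    refine Finset.card_lt_card ⟨fun k hk => ?_, fun hsub => ?_⟩
    · simp only [mem_filter, mem_univ, true_and] at hk ⊢
      refine ⟨Or.inr ?_, hk.2⟩
      rcases hk.1 with rfl | h'
      · exact hij
      · exact lttrans _ _ _ h' hij
    · have : j ∈ univ.filter fun k => (k = j ∨ lt k j) ∧ η (e k).1 ≤ η y ∧ η y ≤ η (e k).2.2 := by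
        simp only [mem_filter, mem_univ, true_and, true_or]
        simp only [C, CR] at hC0
        omega
      have := hsub this
      simp only [mem_filter, mem_univ, true_and] at this
      rcases this.1 with rfl | h'
      · exact ltirr _ hij
      · exact ltirr _ (lttrans _ _ _ h' hij)
  have hnc : ∀ i j, i ≠ j → h i = h j → ¬ C i j := by
    intro i j hij hh hC
    by_cases h' : C j i
    · rcases lt_or_gt_of_ne (fun h'' => hij (hidx h'')) with h1 | h1
      · have := hmono i j ⟨hC, Or.inr h1⟩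
        omega
      · have := hmono j i ⟨h', Or.inr h1⟩
        omega
    · have := hmono i j ⟨hC, Or.inl h'⟩
      omega
  have hlevel : ∀ c, (univ.filter fun j => h j = c).card ≤ alpha ξ η o t := by
    intro c
    have hinj : Set.InjOn e (univ.filter fun j => h j = c : Finset J) := by
      intro i hi j hj hij
      by_contra hne
      simp only [coe_filter, mem_univ, true_and, Set.mem_ofPred_eq] at hi hj
      refine hnc i j hne (hi.trans hj.symm) ?_
      simp only [C, hij, CR]
      omega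
    rw [← Finset.card_image_of_injOn hinj]
    refine le_alpha ?_ ?_
    · intro x hx
      obtain ⟨j, -, rfl⟩ := Finset.mem_image.1 hx
      exact he j
    · intro x hx x' hx' hne
      obtain ⟨j, hj, rfl⟩ := Finset.mem_image.1 hx
      obtain ⟨j', hj', rfl⟩ := Finset.mem_image.1 hx'
      simp only [mem_filter, mem_univ, true_and] at hj hj'
      have hne' : j ≠ j' := fun h => hne (by rw [h])
      refine ⟨hnc j j' hne' (hj.trans hj'.symm), fun hg => ?_⟩
      rcases hc j j' hg with h1 | h1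
      · exact hnc j j' hne' (hj.trans hj'.symm) h1
      · exact hnc j' j hne'.symm (hj'.trans hj.symm) h1
  have := Finset.card_le_mul_card_image_of_maps_to (s := (univ : Finset J)) (t := Finset.Icc 1 D)
    (f := h) (fun j _ => Finset.mem_Icc.2 ⟨hpos j, hle j⟩) (alpha ξ η o t)
    (fun c _ => hlevel c)
  simpa using this

/-- A multiset of good labelled boxes of ply at most `D` has at most `alpha * D` members. -/
theorem multiset_bound {ξ η : ι → ℤ}
    {o : ι → Bool} {t : ι → Fin 4} {J : Type} [Fintype J] [DecidableEq J] (D : ℕ) :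
    ∀ (n : ℕ) (e : J → ι × ι × ι), ∑ z, ∑ j, ind ξ η (e j) z = n → (∀ j, Good ξ η o t (e j)) →
      (∀ z, ∑ j, ind ξ η (e j) z ≤ D) → Fintype.card J ≤ alpha ξ η o t * D := by
  intro n
  induction n using Nat.strong_induction_on with
  | _ n ih =>
    intro e hn he hD
    by_cases hc : ∃ j j', (e j).2.1 = (e j').2.1 ∧ ξ (e j).1 < ξ (e j').1 ∧ η (e j').1 < η (e j).1 ∧
        ξ (e j).2.2 < ξ (e j').2.2 ∧ η (e j').2.2 < η (e j).2.2
    · obtain ⟨j, j', hg, hov⟩ := hc
      have hne : j ≠ j' := by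
        rintro rfl
        omega
      obtain ⟨p, g, q, hj⟩ : ∃ p g q, e j = (p, g, q) := ⟨_, _, _, rfl⟩
      obtain ⟨p', g', q', hj'⟩ : ∃ p g q, e j' = (p, g, q) := ⟨_, _, _, rfl⟩
      rw [hj, hj'] at hg hov
      simp only at hg hov
      subst hg
      have g1 := he j
      have g2 := he j'
      rw [hj] at g1
      rw [hj'] at g2
      obtain ⟨gW, gT⟩ := good_uncross g1 g2 hov
      have b1 := g1.2.2.2.1
      have b2 := g2.2.2.2.1
      simp only [InBox] at b1 b2
      let e' : J → ι × ι × ι := fun k => if k = j then (p, g, q') else if k = j' then (p', g, q)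
        else e k
      have e1 : e' j = (p, g, q') := by simp [e']
      have e2 : e' j' = (p', g, q) := by simp [e', hne.symm]
      have e3 : ∀ k, k ≠ j → k ≠ j' → e' k = e k := by
        intro k h1 h2
        simp [e', h1, h2]
      have hle : ∀ z, ∑ k, ind ξ η (e' k) z + 0 ≤ ∑ k, ind ξ η (e k) z := by
        intro z
        refine sum_le_of_two hne (fun k h1 h2 => by rw [e3 k h1 h2]) 0 ?_
        rw [e1, e2, hj, hj']
        simp only [ind, InBox]
        split_ifs <;> omega
      have hlt : ∑ k, ind ξ η (e' k) (p, q) + 1 ≤ ∑ k, ind ξ η (e k) (p, q) := by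
        refine sum_le_of_two hne (fun k h1 h2 => by rw [e3 k h1 h2]) 1 ?_
        rw [e1, e2, hj, hj']
        simp only [ind, InBox]
        split_ifs <;> omega
      refine ih _ ?_ e' rfl ?_ ?_
      · rw [← hn]
        exact Finset.sum_lt_sum (fun z _ => by simpa using hle z) ⟨(p, q), mem_univ _, hlt⟩
      · intro k
        by_cases h1 : k = j
        · rw [h1, e1]; exact gW
        · by_cases h2 : k = j'
          · rw [h2, e2]; exact gT
          · rw [e3 k h1 h2]; exact he k
      · intro z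
        exact le_trans (by simpa using hle z) (hD z)
    · refine mirsky e he D hD fun j j' hg => ?_
      rcases good_cases (he j) (he j') hg with h | h | h | h
      · exact Or.inl h
      · exact Or.inr h
      · exact absurd ⟨j, j', hg, h⟩ hc
      · exact absurd ⟨j', j, hg.symm, h⟩ hc

/-- Fractional cover of all good boxes of total weight at most `alpha`. -/
theorem good_cover (ξ η : ι → ℤ)
    (o : ι → Bool) (t : ι → Fin 4) :
    ∃ w : ι × ι → ℝ, (∀ z, 0 ≤ w z) ∧ ∑ z, w z ≤ alpha ξ η o t ∧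
      ∀ e, Good ξ η o t e → 1 ≤ ∑ z with InBox ξ η e.1 e.2.2 z, w z := by
  classical
  obtain ⟨w, h0, h1, h2⟩ := lp_cover (Z := ι × ι) (G := {e : ι × ι × ι // Good ξ η o t e})
    (fun z B => InBox ξ η B.1.1 B.1.2.2 z) (alpha ξ η o t) (Nat.cast_nonneg _) (by
      intro m D hm
      have := multiset_bound (ξ := ξ) (η := η) (o := o) (t := t)
        (J := Σ B : {e : ι × ι × ι // Good ξ η o t e}, Fin (m B)) D _ (fun j => j.1.1) rfl
        (fun j => j.1.2) (fun z => by
          refine le_trans (le_of_eq ?_) (hm z)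
          rw [Fintype.sum_sigma, Finset.sum_filter]
          refine Finset.sum_congr rfl fun B _ => ?_
          simp only [ind]
          split_ifs <;> simp)
      rw [Fintype.card_sigma] at this
      simp only [Fintype.card_fin] at this
      exact_mod_cast this)
  exact ⟨w, h0, h1, fun e he => h2 ⟨e, he⟩⟩

end Pool.Agent.P.MP_b9c629_co
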