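import Mathlib
import Pool.Agent.P.MP_b9c629_co.Struct

set_option autoImplicit false
set_option linter.unusedSectionVars false

namespace Pool.Agent.P.MP_b9c629_co

open Finset

variable {ι : Type} [Fintype ι] [DecidableEq ι]

/-- Expectation for independent identically distributed coordinates with weights `w`. -/
noncomputable def Ex {κ : Type} [Fintype κ] (w : κ → ℝ) (F : (ι → κ) → ℝ) : ℝ :=
  ∑ ω : ι → κ, (∏ i, w (ω i)) * F ω

section ex
variable {κ : Type} [Fintype κ] {w : κ → ℝ}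

theorem Ex_prod (φ : ι → κ → ℝ) :
    Ex w (fun ω => ∏ i, φ i (ω i)) = ∏ i, ∑ c, w c * φ i c := by
  classical
  rw [Finset.prod_univ_sum]
  simp only [Ex, Fintype.piFinset_univ]
  refine Finset.sum_congr rfl fun ω _ => ?_
  rw [← Finset.prod_mul_distrib]

theorem Ex_mono (hw : ∀ c, 0 ≤ w c) {F G : (ι → κ) → ℝ} (h : ∀ ω, F ω ≤ G ω) :
    Ex w F ≤ Ex w G :=
  Finset.sum_le_sum fun ω _ =>
    mul_le_mul_of_nonneg_left (h ω) (Finset.prod_nonneg fun i _ => hw (ω i))

theorem Ex_add (F G : (ι → κ) → ℝ) : Ex w (fun ω => F ω + G ω) = Ex w F + Ex w G := by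
  simp only [Ex, mul_add, Finset.sum_add_distrib]

theorem Ex_mul (c : ℝ) (F : (ι → κ) → ℝ) : Ex w (fun ω => c * F ω) = c * Ex w F := by
  simp only [Ex, Finset.mul_sum]
  refine Finset.sum_congr rfl fun ω _ => ?_
  ring

theorem Ex_sum {α : Type} (s : Finset α) (F : α → (ι → κ) → ℝ) :
    Ex w (fun ω => ∑ a ∈ s, F a ω) = ∑ a ∈ s, Ex w (F a) := by
  simp only [Ex, Finset.mul_sum]
  rw [Finset.sum_comm]

theorem Ex_const (hw : ∑ c, w c = 1) (c : ℝ) : Ex w (fun _ : ι → κ => c) = c := by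
  have := Ex_prod (ι := ι) (w := w) (fun _ _ => (1 : ℝ))
  simp only [Finset.prod_const_one, mul_one, hw] at this
  have h2 := Ex_mul (ι := ι) (w := w) c (fun _ => 1)
  simp only [mul_one] at h2
  rw [h2, this, mul_one]

theorem Ex_nonneg (hw : ∀ c, 0 ≤ w c) {F : (ι → κ) → ℝ} (h : ∀ ω, 0 ≤ F ω) : 0 ≤ Ex w F :=
  Finset.sum_nonneg fun ω _ => mul_nonneg (Finset.prod_nonneg fun i _ => hw (ω i)) (h ω)

theorem exists_le_Ex (hw : ∀ c, 0 ≤ w c) (hw1 : ∑ c, w c = 1) (F : (ι → κ) → ℝ) :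
    ∃ ω, F ω ≤ Ex w F := by
  classical
  have hne : Nonempty κ := by
    by_contra h
    rw [not_nonempty_iff] at h
    simp at hw1
  obtain ⟨ω, -, hω⟩ := Finset.exists_min_image (univ : Finset (ι → κ)) F univ_nonempty
  refine ⟨ω, ?_⟩
  have := Ex_mono (F := fun _ => F ω) (G := F) hw fun ω' => hω ω' (mem_univ _)
  rwa [Ex_const hw1] at this

end ex

/-- A non-crossing family of boxes, matching `P` with `Q`, each box containing no other point
of `P` or `Q`. -/
structure Valid (ξ η : ι → ℤ) (P Q : Finset ι) (M : Finset (ι × ι)) : Prop where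
  hP : M.image Prod.fst = P
  hQ : M.image Prod.snd = Q
  disj : Disjoint P Q
  le : ∀ e ∈ M, ξ e.1 ≤ ξ e.2 ∧ η e.1 ≤ η e.2
  emp : ∀ e ∈ M, ∀ i, (i ∈ P ∨ i ∈ Q) → InBox ξ η e.1 e.2 (i, i) → i = e.1 ∨ i = e.2
  ncr : ∀ e ∈ M, ∀ e' ∈ M, e ≠ e' → ¬ CR ξ η e.1 e.2 e'.1 e'.2

theorem Valid.memP {ξ η : ι → ℤ} {P Q : Finset ι} {M : Finset (ι × ι)} (h : Valid ξ η P Q M)
    {e : ι × ι} (he : e ∈ M) : e.1 ∈ P := h.hP ▸ mem_image_of_mem _ he

theorem Valid.memQ {ξ η : ι → ℤ} {P Q : Finset ι} {M : Finset (ι × ι)} (h : Valid ξ η P Q M)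
    {e : ι × ι} (he : e ∈ M) : e.2 ∈ Q := h.hQ ▸ mem_image_of_mem _ he

theorem Valid.memP' {ξ η : ι → ℤ} {P Q : Finset ι} {M : Finset (ι × ι)} (h : Valid ξ η P Q M)
    {p q : ι} (he : (p, q) ∈ M) : p ∈ P := h.memP he

theorem Valid.memQ' {ξ η : ι → ℤ} {P Q : Finset ι} {M : Finset (ι × ι)} (h : Valid ξ η P Q M)
    {p q : ι} (he : (p, q) ∈ M) : q ∈ Q := h.memQ he

theorem Valid.exP {ξ η : ι → ℤ} {P Q : Finset ι} {M : Finset (ι × ι)} (h : Valid ξ η P Q M)
    {p : ι} (hp : p ∈ P) : ∃ q, (p, q) ∈ M := by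
  rw [← h.hP] at hp
  obtain ⟨e, he, rfl⟩ := mem_image.1 hp
  exact ⟨e.2, he⟩

theorem Valid.exQ {ξ η : ι → ℤ} {P Q : Finset ι} {M : Finset (ι × ι)} (h : Valid ξ η P Q M)
    {q : ι} (hq : q ∈ Q) : ∃ p, (p, q) ∈ M := by
  rw [← h.hQ] at hq
  obtain ⟨e, he, rfl⟩ := mem_image.1 hq
  exact ⟨e.1, he⟩

/-- Two upper corners of empty boxes with a common lower corner are incomparable. -/
theorem Valid.anti_up {ξ η : ι → ℤ} {P Q : Finset ι} {M : Finset (ι × ι)} (h : Valid ξ η P Q M)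
    {p q q' : ι} (he : (p, q) ∈ M) (hq' : q' ∈ Q) (hne : q' ≠ q) (h1 : ξ p ≤ ξ q')
    (h2 : η p ≤ η q') (h3 : ξ q' ≤ ξ q) : η q < η q' := by
  by_contra hc
  rcases h.emp _ he q' (Or.inr hq') ⟨h1, h3, h2, not_lt.1 hc⟩ with h4 | h4
  · exact Finset.disjoint_left.1 h.disj (h.memP he) (h4 ▸ hq')
  · exact hne h4

theorem Valid.anti_down {ξ η : ι → ℤ} {P Q : Finset ι} {M : Finset (ι × ι)} (h : Valid ξ η P Q M)
    {p q p' : ι} (he : (p, q) ∈ M) (hp' : p' ∈ P) (hne : p' ≠ p) (h1 : ξ p' ≤ ξ q)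
    (h2 : η p' ≤ η q) (h3 : ξ p ≤ ξ p') : η p' < η p := by
  by_contra hc
  rcases h.emp _ he p' (Or.inl hp') ⟨h3, h1, not_lt.1 hc, h2⟩ with h4 | h4
  · exact hne h4
  · exact Finset.disjoint_left.1 h.disj hp' (h4 ▸ h.memQ he)

theorem Valid.eq_snd {ξ η : ι → ℤ} {P Q : Finset ι} {M : Finset (ι × ι)} (h : Valid ξ η P Q M)
    {p q q' : ι} (he : (p, q) ∈ M) (he' : (p, q') ∈ M) : q = q' := by
  by_contra hne
  have l1 := h.le _ he
  have l2 := h.le _ he'
  simp only at l1 l2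
  rcases le_total (ξ q') (ξ q) with h3 | h3
  · have := h.anti_up he (h.memQ' he') (Ne.symm hne) l2.1 l2.2 h3
    refine h.ncr _ he _ he' (fun hh => hne (Prod.ext_iff.1 hh).2) ?_
    simp only [CR]
    omega
  · have := h.anti_up he' (h.memQ' he) hne l1.1 l1.2 h3
    refine h.ncr _ he' _ he (fun hh => hne (Prod.ext_iff.1 hh).2.symm) ?_
    simp only [CR]
    omega

theorem Valid.eq_fst {ξ η : ι → ℤ} {P Q : Finset ι} {M : Finset (ι × ι)} (h : Valid ξ η P Q M)
    {p p' q : ι} (he : (p, q) ∈ M) (he' : (p', q) ∈ M) : p = p' := by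
  by_contra hne
  have l1 := h.le _ he
  have l2 := h.le _ he'
  simp only at l1 l2
  rcases le_total (ξ p) (ξ p') with h3 | h3
  · have := h.anti_down he (h.memP' he') (Ne.symm hne) l2.1 l2.2 h3
    refine h.ncr _ he _ he' (fun hh => hne (Prod.ext_iff.1 hh).1) ?_
    simp only [CR]
    omega
  · have := h.anti_down he' (h.memP' he) hne l1.1 l1.2 h3
    refine h.ncr _ he' _ he (fun hh => hne (Prod.ext_iff.1 hh).1.symm) ?_
    simp only [CR]
    omega

theorem valid_aux {ξ η : ι → ℤ} {P Q : Finset ι} {M M' : Finset (ι × ι)} (h : Valid ξ η P Q M)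
    (h' : Valid ξ η P Q M') {p q : ι} (he : (p, q) ∈ M) (hn : (p, q) ∉ M')
    (hmax : ∀ e ∈ M, e ∉ M' → ξ e.2 ≤ ξ q) (hmax' : ∀ e ∈ M', e ∉ M → ξ e.2 ≤ ξ q) : False := by
  obtain ⟨p2, hp2⟩ := h'.exQ (h.memQ he)
  obtain ⟨q1, hq1⟩ := h'.exP (h.memP he)
  obtain ⟨q2, hq2⟩ := h.exP (h'.memP hp2)
  simp only at hp2 hq1 hq2
  have n1 : p2 ≠ p := fun hh => hn (hh ▸ hp2)
  have n2 : q1 ≠ q := fun hh => hn (hh ▸ hq1)
  have n3 : q2 ≠ q := fun hh => n1 (h.eq_fst (hh ▸ hq2) he)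
  have m1 : (p, q1) ∉ M := fun hh => n2 (h.eq_snd hh he)
  have m2 : (p2, q2) ∉ M' := fun hh => n3 (h'.eq_snd hh hp2)
  have x1 := hmax' _ hq1 m1
  have x2 := hmax _ hq2 m2
  have l1 := h.le _ he
  have l2 := h'.le _ hp2
  have l3 := h'.le _ hq1
  have l4 := h.le _ hq2
  simp only at x1 x2 l1 l2 l3 l4
  have y1 := h.anti_up he (h'.memQ' hq1) n2 l3.1 l3.2 x1
  have y2 := h'.anti_up hp2 (h.memQ' hq2) n3 l4.1 l4.2 x2
  rcases le_total (ξ p) (ξ p2) with h3 | h3
  · have := h.anti_down he (h'.memP' hp2) n1 l2.1 l2.2 h3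
    refine h.ncr _ he _ hq2 (fun hh => n1 (Prod.ext_iff.1 hh).1.symm) ?_
    simp only [CR]
    omega
  · have := h'.anti_down hp2 (h.memP' he) n1.symm l1.1 l1.2 h3
    refine h'.ncr _ hp2 _ hq1 (fun hh => n1 (Prod.ext_iff.1 hh).1) ?_
    simp only [CR]
    omega

/-- A valid matching is determined by its two vertex sets. -/
theorem valid_unique {ξ η : ι → ℤ} {P Q : Finset ι} {M M' : Finset (ι × ι)} (h : Valid ξ η P Q M)
    (h' : Valid ξ η P Q M') : M = M' := by
  by_contra hne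
  have hne' : ((M \ M') ∪ (M' \ M)).Nonempty := by
    by_contra hc
    rw [Finset.not_nonempty_iff_eq_empty, Finset.union_eq_empty, Finset.sdiff_eq_empty_iff_subset,
      Finset.sdiff_eq_empty_iff_subset] at hc
    exact hne (Finset.Subset.antisymm hc.1 hc.2)
  obtain ⟨⟨p, q⟩, he, hmax⟩ := Finset.exists_max_image _ (fun e : ι × ι => ξ e.2) hne'
  have a1 : ∀ e ∈ M, e ∉ M' → ξ e.2 ≤ ξ q := fun e h1 h2 =>
    hmax e (mem_union_left _ (mem_sdiff.2 ⟨h1, h2⟩))
  have a2 : ∀ e ∈ M', e ∉ M → ξ e.2 ≤ ξ q := fun e h1 h2 =>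
    hmax e (mem_union_right _ (mem_sdiff.2 ⟨h1, h2⟩))
  rcases mem_union.1 he with he | he
  · exact valid_aux h h' (mem_sdiff.1 he).1 (mem_sdiff.1 he).2 a1 a2
  · exact valid_aux h' h (mem_sdiff.1 he).1 (mem_sdiff.1 he).2 a2 a1

open Classical in
/-- Points other than corners covered by the valid matching of `P` and `Q`. -/
noncomputable def Vset (ξ η : ι → ℤ) (P Q : Finset ι) : Finset ι :=
  univ.filter fun i => i ∉ P ∧ i ∉ Q ∧ ∃ M, Valid ξ η P Q M ∧ ∃ e ∈ M, InBox ξ η e.1 e.2 (i, i)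

/-- Weights of the first layer. -/
noncomputable def wo (l : ℝ) (b : Bool) : ℝ := if b then l else 1 - l

/-- Weights of the second layer. -/
noncomputable def wt (r : ℝ) (c : Fin 4) : ℝ := if c = 3 then 1 - 3 * r else r

theorem wo_nonneg {l : ℝ} (h0 : 0 ≤ l) (h1 : l ≤ 1) (b : Bool) : 0 ≤ wo l b := by
  unfold wo; split_ifs <;> linarith

theorem wo_sum (l : ℝ) : ∑ b, wo l b = 1 := by simp [wo]

theorem wt_nonneg {r : ℝ} (h0 : 0 ≤ r) (h1 : 3 * r ≤ 1) (c : Fin 4) : 0 ≤ wt r c := by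
  unfold wt; split_ifs <;> linarith

theorem wt_sum (r : ℝ) : ∑ c, wt r c = 1 := by
  simp [wt, Fin.sum_univ_four]
  ring

noncomputable def phi1 (V : Finset ι) (i : ι) (b : Bool) : ℝ :=
  if i ∈ V then (if b then 0 else 1) else 1

noncomputable def phi2 (θ : ℝ) (P Q V : Finset ι) (i : ι) (c : Fin 4) : ℝ :=
  if i ∈ P then (if c = 0 then 1 else 0) else if i ∈ Q then (if c = 1 then 1 else 0)
    else if i ∈ V then (if c = 2 then θ else 1) else 1

noncomputable def Gfun (ξ η : ι → ℤ) (s : ℝ) (P Q : Finset ι) (o : ι → Bool) (t : ι → Fin 4) :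
    ℝ :=
  if P.card = Q.card ∧ Disjoint P Q then
    ((s⁻¹) ^ P.card * (s⁻¹) ^ Q.card) * ((∏ i, phi1 (Vset ξ η P Q) i (o i)) *
      ∏ i, phi2 (s ^ 2) P Q (Vset ξ η P Q) i (t i))
  else 0

theorem phi1_nonneg (V : Finset ι) (i : ι) (b : Bool) : 0 ≤ phi1 V i b := by
  unfold phi1; split_ifs <;> norm_num

theorem phi2_nonneg {θ : ℝ} (hθ : 0 ≤ θ) (P Q V : Finset ι) (i : ι) (c : Fin 4) :
    0 ≤ phi2 θ P Q V i c := by
  unfold phi2; split_ifs <;> first | exact hθ | norm_num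

theorem Gfun_nonneg (ξ η : ι → ℤ) {s : ℝ} (hs : 0 ≤ s) (P Q : Finset ι) (o : ι → Bool)
    (t : ι → Fin 4) : 0 ≤ Gfun ξ η s P Q o t := by
  unfold Gfun
  split_ifs
  · refine mul_nonneg (by positivity) (mul_nonneg ?_ ?_)
    · exact Finset.prod_nonneg fun i _ => phi1_nonneg _ _ _
    · exact Finset.prod_nonneg fun i _ => phi2_nonneg (by positivity) _ _ _ _ _
  · exact le_rfl

theorem valid_of_anti {ξ η : ι → ℤ} {o : ι → Bool} {t : ι → Fin 4} {S : Finset (ι × ι × ι)}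
    (hS : ∀ e ∈ S, Good ξ η o t e) (hA : Anti ξ η S) :
    Valid ξ η (S.image fun e => e.1) (S.image fun e => e.2.2)
      (S.image fun e => (e.1, e.2.2)) := by
  have tP : ∀ i ∈ S.image (fun e => e.1), t i = 0 := by
    intro i hi
    obtain ⟨e, he, rfl⟩ := mem_image.1 hi
    exact (hS e he).1
  have tQ : ∀ i ∈ S.image (fun e => e.2.2), t i = 1 := by
    intro i hi
    obtain ⟨e, he, rfl⟩ := mem_image.1 hi
    exact (hS e he).2.2.1
  refine ⟨by rw [Finset.image_image]; rfl, by rw [Finset.image_image]; rfl, ?_, ?_, ?_, ?_⟩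
  · rw [Finset.disjoint_left]
    intro i h1 h2
    have := (tP i h1).symm.trans (tQ i h2)
    exact absurd this (by decide)
  · intro x hx
    obtain ⟨e, he, rfl⟩ := mem_image.1 hx
    have := (hS e he).2.2.2.1
    simp only [InBox] at this ⊢
    omega
  · intro x hx i hi hb
    obtain ⟨e, he, rfl⟩ := mem_image.1 hx
    have := (hS e he).2.2.2.2 i hb
    rcases hi with hi | hi
    · exact Or.inl (this.2.1 (tP i hi))
    · exact Or.inr (this.2.2 (tQ i hi))
  · intro x hx x' hx' hne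
    obtain ⟨e, he, rfl⟩ := mem_image.1 hx
    obtain ⟨e', he', rfl⟩ := mem_image.1 hx'
    exact (hA e he e' he' (fun hh => hne (by rw [hh]))).1

theorem anti_inj {ξ η : ι → ℤ} {o : ι → Bool} {t : ι → Fin 4} {S : Finset (ι × ι × ι)}
    (hS : ∀ e ∈ S, Good ξ η o t e) (hA : Anti ξ η S) :
    Set.InjOn (fun e : ι × ι × ι => e.1) S ∧ Set.InjOn (fun e : ι × ι × ι => e.2.2) S ∧
      Set.InjOn (fun e : ι × ι × ι => e.2.1) S := by
  have hV := valid_of_anti hS hA
  have key : ∀ e ∈ S, ∀ e' ∈ S, e.1 = e'.1 → e.2.2 = e'.2.2 → e = e' := by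
    intro e he e' he' h1 h2
    by_contra hne
    refine (hA e he e' he' hne).1 ?_
    simp only [CR, h1, h2]
    omega
  refine ⟨fun e he e' he' h => ?_, fun e he e' he' h => ?_, fun e he e' he' h => ?_⟩
  · simp only at h
    refine key e he e' he' h ?_
    have m1 : (e.1, e.2.2) ∈ S.image fun e => (e.1, e.2.2) := mem_image_of_mem _ he
    have m2 : (e'.1, e'.2.2) ∈ S.image fun e => (e.1, e.2.2) := mem_image_of_mem _ he'
    exact hV.eq_snd m1 (h ▸ m2)
  · simp only at h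
    refine key e he e' he' ?_ h
    have m1 : (e.1, e.2.2) ∈ S.image fun e => (e.1, e.2.2) := mem_image_of_mem _ he
    have m2 : (e'.1, e'.2.2) ∈ S.image fun e => (e.1, e.2.2) := mem_image_of_mem _ he'
    exact hV.eq_fst m1 (h ▸ m2)
  · by_contra hne
    exact (hA e he e' he' hne).2 h

theorem one_le_Gfun {ξ η : ι → ℤ} {s : ℝ} (hs : 1 ≤ s) {o : ι → Bool} {t : ι → Fin 4}
    {S : Finset (ι × ι × ι)} (hS : ∀ e ∈ S, Good ξ η o t e) (hA : Anti ξ η S) :
    1 ≤ Gfun ξ η s (S.image fun e => e.1) (S.image fun e => e.2.2) o t := by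
  classical
  have hV := valid_of_anti hS hA
  obtain ⟨i1, i2, i3⟩ := anti_inj hS hA
  have c1 : (S.image fun e => e.1).card = S.card := Finset.card_image_of_injOn i1
  have c2 : (S.image fun e => e.2.2).card = S.card := Finset.card_image_of_injOn i2
  have c3 : (S.image fun e => e.2.1).card = S.card := Finset.card_image_of_injOn i3
  set P := S.image fun e => e.1 with hP
  set Q := S.image fun e => e.2.2 with hQ
  set Gh := S.image fun e => e.2.1 with hGh
  have tP : ∀ i ∈ P, t i = 0 := by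
    intro i hi
    obtain ⟨e, he, rfl⟩ := mem_image.1 hi
    exact (hS e he).1
  have tQ : ∀ i ∈ Q, t i = 1 := by
    intro i hi
    obtain ⟨e, he, rfl⟩ := mem_image.1 hi
    exact (hS e he).2.2.1
  have tG : ∀ i ∈ Gh, t i = 2 ∧ i ∈ Vset ξ η P Q := by
    intro i hi
    obtain ⟨e, he, rfl⟩ := mem_image.1 hi
    have h2 := (hS e he).2.1
    refine ⟨h2, ?_⟩
    simp only [Vset, mem_filter, mem_univ, true_and]
    refine ⟨fun h => ?_, fun h => ?_, _, hV, (e.1, e.2.2), mem_image_of_mem _ he,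
      (hS e he).2.2.2.1⟩
    · exact absurd ((tP _ h).symm.trans h2) (by decide)
    · exact absurd ((tQ _ h).symm.trans h2) (by decide)
  have hO : ∀ i ∈ Vset ξ η P Q, o i = false := by
    intro i hi
    simp only [Vset, mem_filter, mem_univ, true_and] at hi
    obtain ⟨-, -, M, hM, x, hx, hb⟩ := hi
    rw [valid_unique hM hV] at hx
    obtain ⟨e, he, rfl⟩ := mem_image.1 hx
    exact ((hS e he).2.2.2.2 i hb).1
  unfold Gfun
  rw [if_pos ⟨c1.trans c2.symm, hV.disj⟩, c1, c2]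
  have p1 : ∏ i, phi1 (Vset ξ η P Q) i (o i) = 1 := by
    refine Finset.prod_eq_one fun i _ => ?_
    unfold phi1
    split_ifs with h1 h2
    · rw [hO i h1] at h2
      exact absurd h2 (by decide)
    · rfl
    · rfl
  have hs2 : 1 ≤ s ^ 2 := one_le_pow₀ hs
  have p2 : (s ^ 2) ^ S.card ≤ ∏ i, phi2 (s ^ 2) P Q (Vset ξ η P Q) i (t i) := by
    have : (s ^ 2) ^ S.card = ∏ i, (if i ∈ Gh then s ^ 2 else 1) := by
      rw [Finset.prod_ite_mem, Finset.univ_inter, Finset.prod_const, c3]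
    rw [this]
    refine Finset.prod_le_prod (fun i _ => by split_ifs <;> positivity) fun i _ => ?_
    unfold phi2
    by_cases hG : i ∈ Gh
    · obtain ⟨h2, hv⟩ := tG i hG
      have n1 : i ∉ P := fun h => absurd ((tP _ h).symm.trans h2) (by decide)
      have n2 : i ∉ Q := fun h => absurd ((tQ _ h).symm.trans h2) (by decide)
      simp [hG, n1, n2, hv, h2]
    · rw [if_neg hG]
      split_ifs with h1 h2 h3 h4
      · exact le_rfl
      · exact absurd (tP i h1) h2
      · exact le_rfl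
      · exact absurd (tQ i h3) h4
      · exact hs2
      · exact le_rfl
      · exact le_rfl
  rw [p1, one_mul]
  have hs0 : 0 < s := by linarith
  have : s⁻¹ ^ S.card * s⁻¹ ^ S.card * (s ^ 2) ^ S.card = 1 := by
    rw [← mul_pow, ← mul_pow]
    have : s⁻¹ * s⁻¹ * s ^ 2 = 1 := by field_simp
    rw [this, one_pow]
  rw [← this]
  exact mul_le_mul_of_nonneg_left p2 (by positivity)

theorem two_pow_alpha_le (ξ η : ι → ℤ) {s : ℝ} (hs : 1 ≤ s) (o : ι → Bool) (t : ι → Fin 4) :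
    (2 : ℝ) ^ alpha ξ η o t ≤ ∑ x : Finset ι × Finset ι, Gfun ξ η s x.1 x.2 o t := by
  classical
  obtain ⟨S, hS, hA, hc⟩ := exists_alpha ξ η o t
  obtain ⟨i1, -, -⟩ := anti_inj hS hA
  let F : Finset (ι × ι × ι) → Finset ι × Finset ι :=
    fun T => (T.image fun e => e.1, T.image fun e => e.2.2)
  have hF : Set.InjOn F S.powerset := by
    intro T hT T' hT' h
    have h1 : (T.image fun e => e.1) = T'.image fun e => e.1 := (Prod.ext_iff.1 h).1
    have hT1 : T ⊆ S := mem_powerset.1 hT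
    have hT2 : T' ⊆ S := mem_powerset.1 hT'
    ext e
    constructor
    · intro he
      have : e.1 ∈ T'.image fun e => e.1 := h1 ▸ mem_image_of_mem _ he
      obtain ⟨e', he', hh⟩ := mem_image.1 this
      rw [← i1 (hT2 he') (hT1 he) hh]
      exact he'
    · intro he
      have : e.1 ∈ T.image fun e => e.1 := h1 ▸ mem_image_of_mem _ he
      obtain ⟨e', he', hh⟩ := mem_image.1 this
      rw [← i1 (hT1 he') (hT2 he) hh]
      exact he'
  calc (2 : ℝ) ^ alpha ξ η o t = ∑ _T ∈ S.powerset, (1 : ℝ) := by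
        rw [← hc]
        simp [Finset.card_powerset]
    _ ≤ ∑ T ∈ S.powerset, Gfun ξ η s (F T).1 (F T).2 o t := by
        refine Finset.sum_le_sum fun T hT => ?_
        have hT1 : T ⊆ S := mem_powerset.1 hT
        exact one_le_Gfun hs (fun e he => hS e (hT1 he))
          (fun e he e' he' => hA e (hT1 he) e' (hT1 he'))
    _ = ∑ x ∈ S.powerset.image F, Gfun ξ η s x.1 x.2 o t :=
        (Finset.sum_image (f := fun x : Finset ι × Finset ι => Gfun ξ η s x.1 x.2 o t) hF).symm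
    _ ≤ _ := Finset.sum_le_sum_of_subset_of_nonneg (subset_univ _)
        fun x _ _ => Gfun_nonneg ξ η (by linarith) _ _ _ _

theorem Ex_Gfun (ξ η : ι → ℤ) {s r : ℝ} (hs : 1 ≤ s) (hr : 0 ≤ r) (hl : s ^ 2 * r ≤ 1)
    (P Q : Finset ι) :
    Ex (wo (s ^ 2 * r)) (fun o => Ex (wt r) (fun t => Gfun ξ η s P Q o t)) ≤
      (r / s) ^ P.card * (r / s) ^ Q.card := by
  classical
  have hs0 : 0 < s := by linarith
  by_cases h : P.card = Q.card ∧ Disjoint P Q
  · simp only [Gfun, if_pos h]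
    have e1 : ∀ o : ι → Bool, Ex (wt r) (fun t : ι → Fin 4 =>
        ((s⁻¹) ^ P.card * (s⁻¹) ^ Q.card) * ((∏ i, phi1 (Vset ξ η P Q) i (o i)) *
          ∏ i, phi2 (s ^ 2) P Q (Vset ξ η P Q) i (t i))) =
        (((s⁻¹) ^ P.card * (s⁻¹) ^ Q.card) *
          ∏ i, ∑ c, wt r c * phi2 (s ^ 2) P Q (Vset ξ η P Q) i c) *
          ∏ i, phi1 (Vset ξ η P Q) i (o i) := by
      intro o
      rw [Ex_mul, Ex_mul, Ex_prod]
      ring
    simp only [e1]
    rw [Ex_mul, Ex_prod, mul_assoc, ← Finset.prod_mul_distrib]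
    have e2 : (r / s) ^ P.card * (r / s) ^ Q.card = ((s⁻¹) ^ P.card * (s⁻¹) ^ Q.card) *
        ∏ i, ((if i ∈ P then r else 1) * (if i ∈ Q then r else 1)) := by
      rw [Finset.prod_mul_distrib, Finset.prod_ite_mem, Finset.prod_ite_mem, Finset.univ_inter,
        Finset.univ_inter, Finset.prod_const, Finset.prod_const, div_eq_mul_inv, mul_pow, mul_pow]
      ring
    rw [e2]
    refine mul_le_mul_of_nonneg_left ?_ (by positivity)
    have hV : ∀ i ∈ Vset ξ η P Q, i ∉ P ∧ i ∉ Q := by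
      intro i hi
      simp only [Vset, mem_filter, mem_univ, true_and] at hi
      exact ⟨hi.1, hi.2.1⟩
    have hs2 : 1 ≤ s ^ 2 := one_le_pow₀ hs
    have key : ∀ i, (∑ c, wt r c * phi2 (s ^ 2) P Q (Vset ξ η P Q) i c) *
        (∑ c, wo (s ^ 2 * r) c * phi1 (Vset ξ η P Q) i c) =
        if i ∈ P then r else if i ∈ Q then r else if i ∈ Vset ξ η P Q then
          (1 + (s ^ 2 - 1) * r) * (1 - s ^ 2 * r) else 1 := by
      intro i
      by_cases h1 : i ∈ P
      · have : i ∉ Vset ξ η P Q := fun hh => (hV i hh).1 h1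
        simp [phi1, phi2, wt, wo, h1, this]
      · by_cases h2 : i ∈ Q
        · have : i ∉ Vset ξ η P Q := fun hh => (hV i hh).2 h2
          simp [phi1, phi2, wt, wo, h1, h2, this]
        · by_cases h3 : i ∈ Vset ξ η P Q
          · simp [phi1, phi2, wt, wo, h1, h2, h3, Fin.sum_univ_four]
            left
            ring
          · simp [phi1, phi2, wt, wo, h1, h2, h3, Fin.sum_univ_four]
            ring
    refine Finset.prod_le_prod (fun i _ => ?_) fun i _ => ?_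
    · rw [key]
      split_ifs
      · exact hr
      · exact hr
      · exact mul_nonneg (by nlinarith [mul_nonneg (sub_nonneg.2 hs2) hr]) (by linarith)
      · norm_num
    · rw [key]
      by_cases h1 : i ∈ P
      · have : i ∉ Q := Finset.disjoint_left.1 h.2 h1
        simp [h1, this]
      · by_cases h2 : i ∈ Q
        · simp [h1, h2]
        · simp only [h1, h2, if_false, mul_one]
          split_ifs
          · have a0 : 0 ≤ s ^ 2 * r := by positivity
            nlinarith [mul_nonneg hr (sub_nonneg.2 hl), mul_nonneg a0 a0]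
          · exact le_rfl
  · simp only [Gfun, if_neg h]
    rw [show (fun _ : ι → Bool => Ex (wt r) (fun _ : ι → Fin 4 => (0 : ℝ))) = fun _ => 0 from
      funext fun _ => Ex_const (wt_sum r) 0, Ex_const (wo_sum _)]
    positivity

/-- The expected size of the largest non-crossing family is small. -/
theorem Ex_alpha (ξ η : ι → ℤ) {s r : ℝ} (hs : 1 ≤ s) (hr : 0 ≤ r) (hr3 : 3 * r ≤ 1)
    (hl : s ^ 2 * r ≤ 1) :
    Ex (wo (s ^ 2 * r)) (fun o => Ex (wt r) (fun t => (alpha ξ η o t : ℝ))) ≤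
      3 * (r / s) * Fintype.card ι := by
  classical
  have hs0 : 0 < s := by linarith
  have hb : 0 ≤ r / s := by positivity
  have w1 := wo_nonneg (l := s ^ 2 * r) (by positivity) hl
  have w2 := wt_nonneg hr hr3
  set a : ℝ := 2 * (r / s) * Fintype.card ι with ha
  have h1 : Ex (wo (s ^ 2 * r)) (fun o => Ex (wt r) (fun t => (2 : ℝ) ^ alpha ξ η o t)) ≤
      Real.exp a := by
    calc Ex (wo (s ^ 2 * r)) (fun o => Ex (wt r) (fun t => (2 : ℝ) ^ alpha ξ η o t))
        ≤ Ex (wo (s ^ 2 * r)) (fun o => Ex (wt r)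
          (fun t => ∑ x : Finset ι × Finset ι, Gfun ξ η s x.1 x.2 o t)) :=
          Ex_mono w1 fun o => Ex_mono w2 fun t => two_pow_alpha_le ξ η hs o t
      _ = ∑ x : Finset ι × Finset ι, Ex (wo (s ^ 2 * r))
          (fun o => Ex (wt r) (fun t => Gfun ξ η s x.1 x.2 o t)) := by
          rw [← Ex_sum]
          congr 1
          funext o
          rw [Ex_sum]
      _ ≤ ∑ x : Finset ι × Finset ι, (r / s) ^ x.1.card * (r / s) ^ x.2.card :=
          Finset.sum_le_sum fun x _ => Ex_Gfun ξ η hs hr hl x.1 x.2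
      _ = (∑ P : Finset ι, (r / s) ^ P.card) * (∑ P : Finset ι, (r / s) ^ P.card) := by
          rw [Fintype.sum_prod_type, Finset.sum_mul_sum]
      _ = (1 + r / s) ^ Fintype.card ι * (1 + r / s) ^ Fintype.card ι := by
          have : ∑ P : Finset ι, (r / s) ^ P.card = (1 + r / s) ^ Fintype.card ι := by
            have := Finset.prod_one_add (f := fun _ : ι => r / s) (univ : Finset ι)
            simp only [Finset.prod_const, Finset.card_univ, Finset.powerset_univ] at this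
            exact this.symm
          rw [this]
      _ ≤ Real.exp (r / s) ^ Fintype.card ι * Real.exp (r / s) ^ Fintype.card ι := by
          have : 1 + r / s ≤ Real.exp (r / s) := by
            have := Real.add_one_le_exp (r / s)
            linarith
          have h2 := pow_le_pow_left₀ (by positivity) this (Fintype.card ι)
          exact mul_le_mul h2 h2 (by positivity) (by positivity)
      _ = Real.exp a := by
          rw [← Real.exp_nat_mul, ← Real.exp_add, ha]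
          congr 1
          ring
  have hpt : ∀ n : ℕ, (n : ℝ) ≤ (3 / 2) * ((Real.exp a)⁻¹ * 2 ^ n + (a - 1)) := by
    intro n
    have h2 := Real.log_le_sub_one_of_pos (x := (Real.exp a)⁻¹ * 2 ^ n) (by positivity)
    rw [Real.log_mul (by positivity) (by positivity), Real.log_inv, Real.log_exp,
      Real.log_pow] at h2
    have h3 := Real.log_two_gt_d9
    have h4 : (0 : ℝ) ≤ n := Nat.cast_nonneg n
    nlinarith
  calc Ex (wo (s ^ 2 * r)) (fun o => Ex (wt r) (fun t => (alpha ξ η o t : ℝ)))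
      ≤ Ex (wo (s ^ 2 * r)) (fun o => Ex (wt r)
        (fun t => (3 / 2) * ((Real.exp a)⁻¹ * 2 ^ alpha ξ η o t + (a - 1)))) :=
        Ex_mono w1 fun o => Ex_mono w2 fun t => hpt _
    _ = (3 / 2) * ((Real.exp a)⁻¹ *
        Ex (wo (s ^ 2 * r)) (fun o => Ex (wt r) (fun t => (2 : ℝ) ^ alpha ξ η o t)) + (a - 1)) := by
        simp only [Ex_mul, Ex_add, Ex_const (wt_sum r), Ex_const (wo_sum _)]
    _ ≤ (3 / 2) * ((Real.exp a)⁻¹ * Real.exp a + (a - 1)) := by
        have := mul_le_mul_of_nonneg_left h1 (inv_nonneg.2 (Real.exp_pos a).le)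
        linarith
    _ = 3 * (r / s) * Fintype.card ι := by
        rw [inv_mul_cancel₀ (Real.exp_pos a).ne', ha]
        ring

end Pool.Agent.P.MP_b9c629_co
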