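import Mathlib
import Pool.Agent.P.MP_b9c629_co.Prob

set_option autoImplicit false
set_option linter.unusedSectionVars false

namespace Pool.Agent.P.MP_b9c629_co

open Finset

variable {ι : Type} [Fintype ι] [DecidableEq ι]

/-- `R` contains every point lying in its bounding box. -/
def Closed (ξ η : ι → ℤ) (R : Finset ι) : Prop :=
  ∀ a ∈ R, ∀ b ∈ R, ∀ c ∈ R, ∀ d ∈ R, ∀ i, ξ a ≤ ξ i → ξ i ≤ ξ b → η c ≤ η i → η i ≤ η d → i ∈ R

theorem exists_closed_sub {ξ η : ι → ℤ} (hξ : Function.Injective ξ) (D : ℕ) :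
    ∀ (n : ℕ) (R : Finset ι), Closed ξ η R → R.card = D + n →
      ∃ R0 ⊆ R, Closed ξ η R0 ∧ R0.card = D := by
  intro n
  induction n with
  | zero => exact fun R h hc => ⟨R, Subset.refl _, h, hc⟩
  | succ n ih =>
    intro R h hc
    have hne : R.Nonempty := Finset.card_pos.1 (by omega)
    obtain ⟨m, hm, hmax⟩ := Finset.exists_max_image R ξ hne
    obtain ⟨R0, h1, h2, h3⟩ := ih (R.erase m) (by
      intro a ha b hb c hc d hd i x1 x2 x3 x4
      have hi := h a (mem_of_mem_erase ha) b (mem_of_mem_erase hb) c (mem_of_mem_erase hc) d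
        (mem_of_mem_erase hd) i x1 x2 x3 x4
      refine mem_erase.2 ⟨?_, hi⟩
      rintro rfl
      have := hmax b (mem_of_mem_erase hb)
      exact (mem_erase.1 hb).1 (hξ (le_antisymm this x2))) (by
      rw [card_erase_of_mem hm]
      omega)
    exact ⟨R0, h1.trans (erase_subset _ _), h2, h3⟩

theorem few_small (f : ι → ℤ) (hf : Function.Injective f) (R : Finset ι) (k : ℕ) :
    (R.filter fun g => (R.filter fun i => f i < f g).card < k).card ≤ k := by
  have mono : ∀ g ∈ R, ∀ g', f g < f g' →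
      (R.filter fun i => f i < f g).card < (R.filter fun i => f i < f g').card := by
    intro g hg g' h
    refine Finset.card_lt_card ⟨fun i hi => ?_, fun hs => ?_⟩
    · simp only [mem_filter] at hi ⊢
      exact ⟨hi.1, hi.2.trans h⟩
    · have := hs (mem_filter.2 ⟨hg, h⟩)
      simp at this
  have := Finset.card_le_card_of_injOn (s := R.filter fun g =>
    (R.filter fun i => f i < f g).card < k) (t := Finset.range k)
    (fun g => (R.filter fun i => f i < f g).card)
    (fun g hg => by
      simp only [coe_filter, Set.mem_ofPred_eq] at hg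
      simpa using hg.2)
    (fun g hg g' hg' h => by
      simp only [coe_filter, Set.mem_ofPred_eq] at hg hg'
      simp only at h
      rcases lt_trichotomy (f g) (f g') with h1 | h1 | h1
      · have := mono g hg.1 g' h1
        omega
      · exact hf h1
      · have := mono g' hg'.1 g h1
        omega)
  simpa using this

/-- Monotone triples of `R`. -/
def Tri (ξ η : ι → ℤ) (R : Finset ι) : Finset (ι × ι × ι) :=
  (R ×ˢ R ×ˢ R).filter fun e => ξ e.1 < ξ e.2.1 ∧ ξ e.2.1 < ξ e.2.2 ∧
    ((η e.1 < η e.2.1 ∧ η e.2.1 < η e.2.2) ∨ (η e.2.1 < η e.1 ∧ η e.2.2 < η e.2.1))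

theorem card_Tri {ξ η : ι → ℤ} (hξ : Function.Injective ξ) (hη : Function.Injective η)
    (R : Finset ι) (d : ℕ) (hR : R.card = 10 * d) : 2 * d ^ 3 ≤ (Tri ξ η R).card := by
  classical
  have hξ' : Function.Injective (fun i => -ξ i) := fun a b h => hξ (neg_injective h)
  have hη' : Function.Injective (fun i => -η i) := fun a b h => hη (neg_injective h)
  let B1 := R.filter fun g => (R.filter fun i => ξ i < ξ g).card < 2 * d
  let B2 := R.filter fun g => (R.filter fun i => -ξ i < -ξ g).card < 2 * d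
  let B3 := R.filter fun g => (R.filter fun i => η i < η g).card < 2 * d
  let B4 := R.filter fun g => (R.filter fun i => -η i < -η g).card < 2 * d
  have b1 : B1.card ≤ 2 * d := few_small ξ hξ R _
  have b2 : B2.card ≤ 2 * d := few_small _ hξ' R _
  have b3 : B3.card ≤ 2 * d := few_small η hη R _
  have b4 : B4.card ≤ 2 * d := few_small _ hη' R _
  let G := R \ (B1 ∪ B2 ∪ B3 ∪ B4)
  have hG : 2 * d ≤ G.card := by
    have h1 := Finset.le_card_sdiff (B1 ∪ B2 ∪ B3 ∪ B4) R
    have h2 := Finset.card_union_le (B1 ∪ B2 ∪ B3) B4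
    have h3 := Finset.card_union_le (B1 ∪ B2) B3
    have h4 := Finset.card_union_le B1 B2
    simp only [G]
    omega
  have hfib : ∀ g ∈ G, d ^ 2 ≤ ((Tri ξ η R).filter fun e => e.2.1 = g).card := by
    intro g hg
    simp only [G, mem_sdiff, mem_union, not_or, B1, B2, B3, B4, mem_filter] at hg
    obtain ⟨hgR, ⟨⟨c1, c2⟩, c3⟩, c4⟩ := hg
    simp only [hgR, true_and, not_lt] at c1 c2 c3 c4
    let LL := R.filter fun i => ξ i < ξ g ∧ η i < η g
    let UL := R.filter fun i => ξ i < ξ g ∧ η g < η i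
    let LR := R.filter fun i => ξ g < ξ i ∧ η i < η g
    let UR := R.filter fun i => ξ g < ξ i ∧ η g < η i
    have nx : ∀ i, i ≠ g → ξ i ≠ ξ g := fun i h hh => h (hξ hh)
    have ny : ∀ i, i ≠ g → η i ≠ η g := fun i h hh => h (hη hh)
    have s1 : 2 * d ≤ LL.card + UL.card := by
      refine c1.trans ((Finset.card_le_card fun i hi => ?_).trans (Finset.card_union_le _ _))
      simp only [mem_filter, mem_union, LL, UL] at hi ⊢
      have := ny i (by rintro rfl; omega)
      simp only [hi.1, true_and]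
      omega
    have s2 : 2 * d ≤ LR.card + UR.card := by
      refine c2.trans ((Finset.card_le_card fun i hi => ?_).trans (Finset.card_union_le _ _))
      simp only [mem_filter, mem_union, LR, UR] at hi ⊢
      have := ny i (by rintro rfl; omega)
      simp only [hi.1, true_and]
      omega
    have s3 : 2 * d ≤ LL.card + LR.card := by
      refine c3.trans ((Finset.card_le_card fun i hi => ?_).trans (Finset.card_union_le _ _))
      simp only [mem_filter, mem_union, LL, LR] at hi ⊢
      have := nx i (by rintro rfl; omega)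
      simp only [hi.1, true_and]
      omega
    have s4 : 2 * d ≤ UL.card + UR.card := by
      refine c4.trans ((Finset.card_le_card fun i hi => ?_).trans (Finset.card_union_le _ _))
      simp only [mem_filter, mem_union, UL, UR] at hi ⊢
      have := nx i (by rintro rfl; omega)
      simp only [hi.1, true_and]
      omega
    have inj : ∀ s : Finset (ι × ι), Set.InjOn (fun x : ι × ι => (x.1, g, x.2)) s := by
      intro s x _ y _ h
      simp only [Prod.mk.injEq, true_and] at h
      exact Prod.ext h.1 h.2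
    have t1 : LL.card * UR.card ≤ ((Tri ξ η R).filter fun e => e.2.1 = g).card := by
      rw [← Finset.card_product]
      refine Finset.card_le_card_of_injOn (fun x : ι × ι => (x.1, g, x.2)) ?_ (inj _)
      intro x hx
      simp only [coe_product, Set.mem_prod, mem_coe, mem_filter, LL, UR] at hx
      simp only [coe_filter, Set.mem_ofPred_eq, Tri, mem_filter, mem_product, and_true]
      exact ⟨⟨hx.1.1, hgR, hx.2.1⟩, hx.1.2.1, hx.2.2.1, Or.inl ⟨hx.1.2.2, hx.2.2.2⟩⟩
    have t2 : UL.card * LR.card ≤ ((Tri ξ η R).filter fun e => e.2.1 = g).card := by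
      rw [← Finset.card_product]
      refine Finset.card_le_card_of_injOn (fun x : ι × ι => (x.1, g, x.2)) ?_ (inj _)
      intro x hx
      simp only [coe_product, Set.mem_prod, mem_coe, mem_filter, UL, LR] at hx
      simp only [coe_filter, Set.mem_ofPred_eq, Tri, mem_filter, mem_product, and_true]
      exact ⟨⟨hx.1.1, hgR, hx.2.1⟩, hx.1.2.1, hx.2.2.1, Or.inr ⟨hx.1.2.2, hx.2.2.2⟩⟩
    by_cases h : d ≤ LL.card ∧ d ≤ UR.card
    · refine le_trans ?_ t1
      rw [sq]
      exact Nat.mul_le_mul h.1 h.2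
    · refine le_trans ?_ t2
      rw [sq]
      exact Nat.mul_le_mul (by omega) (by omega)
  calc 2 * d ^ 3 = 2 * d * d ^ 2 := by ring
    _ ≤ G.card * d ^ 2 := Nat.mul_le_mul_right _ hG
    _ = ∑ _g ∈ G, d ^ 2 := by simp
    _ ≤ ∑ g ∈ G, ((Tri ξ η R).filter fun e => e.2.1 = g).card := Finset.sum_le_sum hfib
    _ ≤ ∑ g, ((Tri ξ η R).filter fun e => e.2.1 = g).card :=
        Finset.sum_le_sum_of_subset (subset_univ _)
    _ = (Tri ξ η R).card :=
        (Finset.card_eq_sum_card_fiberwise (f := fun e : ι × ι × ι => e.2.1)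
          (fun _ _ => mem_coe.2 (mem_univ _))).symm

/-- Indicator factors of the event that exactly the triple `e` is sampled in `R`. -/
noncomputable def chi (R : Finset ι) (e : ι × ι × ι) (i : ι) (c : Fin 4) : ℝ :=
  if i = e.1 then (if c = 0 then 1 else 0) else if i = e.2.1 then (if c = 2 then 1 else 0)
    else if i = e.2.2 then (if c = 1 then 1 else 0)
      else if i ∈ R then (if c = 3 then 1 else 0) else 1

/-- The triple `e` is exactly the sampled part of `R`. -/
def Match (R : Finset ι) (e : ι × ι × ι) (t : ι → Fin 4) : Prop :=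
  t e.1 = 0 ∧ t e.2.1 = 2 ∧ t e.2.2 = 1 ∧ ∀ i ∈ R, i ≠ e.1 → i ≠ e.2.1 → i ≠ e.2.2 → t i = 3

theorem prod_chi_le {ξ η : ι → ℤ} {R : Finset ι} {e : ι × ι × ι} (he : e ∈ Tri ξ η R)
    (t : ι → Fin 4) [Decidable (Match R e t)] :
    ∏ i, chi R e i (t i) ≤ if Match R e t then 1 else 0 := by
  simp only [Tri, mem_filter, mem_product] at he
  have n1 : e.2.1 ≠ e.1 := by
    intro h
    rw [h] at he
    omega
  have n2 : e.2.2 ≠ e.1 := by
    intro h
    rw [h] at he
    omega
  have n3 : e.2.2 ≠ e.2.1 := by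
    intro h
    rw [h] at he
    omega
  split_ifs with h
  · refine Finset.prod_le_one (fun i _ => ?_) fun i _ => ?_
    · unfold chi; split_ifs <;> norm_num
    · unfold chi; split_ifs <;> norm_num
  · refine le_of_eq ?_
    by_contra hne
    have hall : ∀ i, chi R e i (t i) ≠ 0 := fun i hi =>
      hne (Finset.prod_eq_zero (mem_univ i) hi)
    refine h ⟨?_, ?_, ?_, fun i hi m1 m2 m3 => ?_⟩
    · have := hall e.1
      simpa [chi] using this
    · have := hall e.2.1
      simpa [chi, n1] using this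
    · have := hall e.2.2
      simpa [chi, n2, n3] using this
    · have := hall i
      simpa [chi, m1, m2, m3, hi] using this

theorem Ex_chi {ξ η : ι → ℤ} {R : Finset ι} {e : ι × ι × ι} (he : e ∈ Tri ξ η R) {r : ℝ}
    (hr : 0 ≤ r) (hr3 : 3 * r ≤ 1) :
    r ^ 3 * (1 - 3 * r) ^ R.card ≤ Ex (wt r) (fun t => ∏ i, chi R e i (t i)) := by
  simp only [Tri, mem_filter, mem_product] at he
  have n1 : e.2.1 ≠ e.1 := by
    intro h
    rw [h] at he
    omega
  have n2 : e.2.2 ≠ e.1 := by
    intro h
    rw [h] at he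
    omega
  have n3 : e.2.2 ≠ e.2.1 := by
    intro h
    rw [h] at he
    omega
  rw [Ex_prod]
  have e1 : r ^ 3 * (1 - 3 * r) ^ R.card = ∏ i, ((if i = e.1 then r else 1) *
      (if i = e.2.1 then r else 1) * (if i = e.2.2 then r else 1) *
      (if i ∈ R then 1 - 3 * r else 1)) := by
    simp only [Finset.prod_mul_distrib, Finset.prod_ite_eq', mem_univ, if_true,
      Finset.prod_ite_mem, Finset.univ_inter, Finset.prod_const]
    ring
  rw [e1]
  have h3 : 0 ≤ 1 - 3 * r := by linarith
  have h4 : r * (1 - 3 * r) ≤ r := by nlinarith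
  refine Finset.prod_le_prod (fun i _ => by split_ifs <;> positivity) fun i _ => ?_
  by_cases m1 : i = e.1
  · subst m1
    simp [chi, wt, n1.symm, n2.symm, he.1.1, h4]
  · by_cases m2 : i = e.2.1
    · subst m2
      simp [chi, wt, n1, n3.symm, he.1.2.1, h4]
    · by_cases m3 : i = e.2.2
      · subst m3
        simp [chi, wt, n2, n3, he.1.2.2, h4]
      · by_cases m4 : i ∈ R
        · simp [chi, wt, m1, m2, m3, m4]
        · simp only [chi, m1, m2, m3, m4, if_false, mul_one]
          rw [wt_sum]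

theorem match_unique {ξ η : ι → ℤ} {R : Finset ι} {e e' : ι × ι × ι} (he : e ∈ Tri ξ η R)
    {t : ι → Fin 4} (h : Match R e t) (h' : Match R e' t) : e = e' := by
  simp only [Tri, mem_filter, mem_product] at he
  obtain ⟨a1, a2, a3, -⟩ := h
  obtain ⟨b1, b2, b3, b4⟩ := h'
  have k : ∀ i ∈ R, (t i = 0 → i = e'.1) ∧ (t i = 2 → i = e'.2.1) ∧ (t i = 1 → i = e'.2.2) := by
    intro i hi
    by_cases m1 : i = e'.1
    · subst m1
      simp [b1]
    · by_cases m2 : i = e'.2.1
      · subst m2
        simp [b2]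
      · by_cases m3 : i = e'.2.2
        · subst m3
          simp [b3]
        · simp [b4 i hi m1 m2 m3]
  exact Prod.ext ((k _ he.1.1).1 a1) (Prod.ext ((k _ he.1.2.1).2.1 a2) ((k _ he.1.2.2).2.2 a3))

theorem good_of_match {ξ η : ι → ℤ} {R : Finset ι} (hR : Closed ξ η R) {o : ι → Bool}
    (ho : ∀ i ∈ R, o i = false) {e : ι × ι × ι} (he : e ∈ Tri ξ η R) {t : ι → Fin 4}
    (h : Match R e t) : Good ξ η o t e ∨ Good ξ (fun i => -η i) o t e := by
  simp only [Tri, mem_filter, mem_product] at he
  obtain ⟨a1, a2, a3, a4⟩ := h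
  have k : ∀ i ∈ R, o i = false ∧ (t i = 0 → i = e.1) ∧ (t i = 1 → i = e.2.2) := by
    intro i hi
    refine ⟨ho i hi, ?_⟩
    by_cases m1 : i = e.1
    · subst m1
      simp [a1]
    · by_cases m2 : i = e.2.1
      · subst m2
        simp [a2]
      · by_cases m3 : i = e.2.2
        · subst m3
          simp [a3]
        · simp [a4 i hi m1 m2 m3]
  rcases he.2.2.2 with h1 | h1
  · left
    refine ⟨a1, a2, a3, ?_, fun i hi => k i ?_⟩
    · simp only [InBox]; omega
    · exact hR _ he.1.1 _ he.1.2.2 _ he.1.1 _ he.1.2.2 i hi.1 hi.2.1 hi.2.2.1 hi.2.2.2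
  · right
    refine ⟨a1, a2, a3, ?_, fun i hi => k i ?_⟩
    · simp only [InBox]; omega
    · simp only [InBox] at hi
      exact hR _ he.1.1 _ he.1.2.2 _ he.1.2.2 _ he.1.1 i hi.1 hi.2.1 (by omega) (by omega)

/-- A closed set of `10 d` unsampled points contains a good box with constant probability. -/
theorem rich_prob {ξ η : ι → ℤ} (hξ : Function.Injective ξ) (hη : Function.Injective η)
    {R : Finset ι} (hR : Closed ξ η R) {d : ℕ} (hd : 1 ≤ d) (hc : R.card = 10 * d)
    {o : ι → Bool} (ho : ∀ i ∈ R, o i = false) (F : (ι → Fin 4) → ℝ) (hF0 : ∀ t, 0 ≤ F t)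
    (hF : ∀ t e, e.1 ∈ R → e.2.2 ∈ R →
      (Good ξ η o t e ∨ Good ξ (fun i => -η i) o t e) → 1 ≤ F t) :
    1 / 216000 ≤ Ex (wt (1 / (60 * d))) F := by
  classical
  have hd' : (1 : ℝ) ≤ d := by exact_mod_cast hd
  set r : ℝ := 1 / (60 * d) with hr
  have hr0 : 0 ≤ r := by positivity
  have hrd : r * d = 1 / 60 := by
    rw [hr]
    field_simp
  have hr3 : 3 * r ≤ 1 := by nlinarith
  have hpt : ∀ t, ∑ e ∈ Tri ξ η R, ∏ i, chi R e i (t i) ≤ F t := by
    intro t
    refine (Finset.sum_le_sum fun e he => prod_chi_le he t).trans ?_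
    rw [← Finset.sum_filter]
    simp only [Finset.sum_const, nsmul_eq_mul, mul_one]
    rcases ((Tri ξ η R).filter fun e => Match R e t).eq_empty_or_nonempty with h | ⟨e, he⟩
    · rw [h]
      simpa using hF0 t
    · have hcard : ((Tri ξ η R).filter fun e => Match R e t).card ≤ 1 := by
        refine Finset.card_le_one.2 fun a ha b hb => ?_
        exact match_unique (mem_filter.1 ha).1 (mem_filter.1 ha).2 (mem_filter.1 hb).2
      have he1 := (mem_filter.1 he).1
      have he2 := he1
      simp only [Tri, mem_filter, mem_product] at he2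
      have := hF t e he2.1.1 he2.1.2.2 (good_of_match hR ho he1 (mem_filter.1 he).2)
      have h2 : (((Tri ξ η R).filter fun e => Match R e t).card : ℝ) ≤ 1 := by
        exact_mod_cast hcard
      linarith
  refine le_trans ?_ (Ex_mono (wt_nonneg hr0 hr3) hpt)
  rw [Ex_sum]
  refine le_trans ?_ (Finset.sum_le_sum fun e he => Ex_chi he hr0 hr3)
  rw [Finset.sum_const, nsmul_eq_mul]
  have h1 : (2 * d ^ 3 : ℝ) ≤ (Tri ξ η R).card := by exact_mod_cast card_Tri hξ hη R d hc
  have h2 : (1 : ℝ) / 2 ≤ (1 - 3 * r) ^ R.card := by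
    have := one_add_mul_le_pow (a := -(3 * r)) (by linarith) R.card
    rw [hc] at this ⊢
    push_cast at this
    have e : (1 : ℝ) + -(3 * r) = 1 - 3 * r := by ring
    rw [e] at this
    nlinarith
  have h3 : (2 * d ^ 3 : ℝ) * (r ^ 3 * (1 / 2)) = 1 / 216000 := by
    have : (2 * d ^ 3 : ℝ) * (r ^ 3 * (1 / 2)) = (r * d) ^ 3 := by ring
    rw [this, hrd]
    norm_num
  rw [← h3]
  exact mul_le_mul h1 (mul_le_mul_of_nonneg_left h2 (by positivity)) (by positivity)
    (Nat.cast_nonneg _)

end Pool.Agent.P.MP_b9c629_co
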