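import Mathlib
import Pool.Agent.P.MP_b9c629_co.Rich

set_option autoImplicit false
set_option linter.unusedSectionVars false

namespace Pool.Agent.P.MP_b9c629_co

open Finset

/-- One sampling round on a point set in general position. -/
theorem core {ι : Type} [Fintype ι] [DecidableEq ι] {ξ η : ι → ℤ} (hξ : Function.Injective ξ)
    (hη : Function.Injective η) (d : ℕ) (hd : 864000 ^ 2 ≤ d) (g : ℝ) (hg : 0 ≤ g) :
    ∃ (O : Finset ι) (w : ι × ι → ℝ), (∀ z, 0 ≤ w z) ∧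
      (O.card : ℝ) + g * ∑ z, w z ≤ (864000 ^ 2 / 6 + g / 4) * (Fintype.card ι / (10 * d)) ∧
      ∀ X Y : Finset ι, (∀ a ∈ X, ∀ b ∈ X, ∀ i, ξ a ≤ ξ i → ξ i ≤ ξ b → i ∈ X) →
        (∀ a ∈ Y, ∀ b ∈ Y, ∀ i, η a ≤ η i → η i ≤ η b → i ∈ Y) → 10 * d ≤ (X ∩ Y).card →
        (∃ i ∈ O, i ∈ X ∧ i ∈ Y) ∨ 1 ≤ ∑ z ∈ X ×ˢ Y, w z := by
  classical
  have hd1 : 1 ≤ d := le_trans (by norm_num) hd
  have hdR : (864000 : ℝ) ^ 2 ≤ d := by exact_mod_cast hd
  have hd0 : (0 : ℝ) < d := by linarith [show (0 : ℝ) < 864000 ^ 2 by norm_num]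
  set r : ℝ := 1 / (60 * d) with hr
  have hr0 : 0 ≤ r := by positivity
  have hrd : r * d = 1 / 60 := by
    rw [hr]
    field_simp
  have hl : (864000 : ℝ) ^ 2 * r ≤ 1 := by nlinarith
  have hr3 : 3 * r ≤ 1 := by nlinarith
  have w1 := wo_nonneg (l := (864000 : ℝ) ^ 2 * r) (by positivity) hl
  have w2 := wt_nonneg hr0 hr3
  choose wi hwi0 hwi1 hwi2 using fun o t => good_cover ξ η o t
  choose wd hwd0 hwd1 hwd2 using fun o t => good_cover ξ (fun i => -η i) o t
  let W : (ι → Bool) → ι × ι → ℝ := fun o z => 216000 * Ex (wt r) (fun t => wi o t z + wd o t z)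
  have hW0 : ∀ o z, 0 ≤ W o z := fun o z =>
    mul_nonneg (by norm_num) (Ex_nonneg w2 fun t => add_nonneg (hwi0 o t z) (hwd0 o t z))
  have hWsum : ∀ o (s : Finset (ι × ι)), ∑ z ∈ s, W o z =
      216000 * Ex (wt r) (fun t => ∑ z ∈ s, wi o t z + ∑ z ∈ s, wd o t z) := by
    intro o s
    simp only [W]
    rw [← Finset.mul_sum, ← Ex_sum]
    simp only [Finset.sum_add_distrib]
  let Oo : (ι → Bool) → Finset ι := fun o => univ.filter fun i => o i = true
  obtain ⟨o, ho⟩ := exists_le_Ex w1 (wo_sum _)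
    (fun o => ((Oo o).card : ℝ) + g * ∑ z, W o z)
  refine ⟨Oo o, W o, hW0 o, ho.trans ?_, ?_⟩
  · rw [Ex_add, Ex_mul]
    have e1 : Ex (wo ((864000 : ℝ) ^ 2 * r)) (fun o => ((Oo o).card : ℝ)) =
        864000 ^ 2 * r * Fintype.card ι := by
      have : ∀ o : ι → Bool, ((Oo o).card : ℝ) =
          ∑ j, ∏ i, (if i = j then (if o i = true then (1 : ℝ) else 0) else 1) := by
        intro o
        simp [Oo, Finset.prod_ite_eq']
      simp only [this]
      rw [Ex_sum]
      have h2 : ∀ j : ι, Ex (wo ((864000 : ℝ) ^ 2 * r))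
          (fun o : ι → Bool => ∏ i, (if i = j then (if o i = true then (1 : ℝ) else 0) else 1)) =
          864000 ^ 2 * r := by
        intro j
        rw [Ex_prod (fun i b => if i = j then (if b = true then (1 : ℝ) else 0) else 1)]
        rw [Finset.prod_eq_single j]
        · simp [wo]
        · intro i _ hi
          simp [wo, hi]
        · simp
      simp only [h2]
      simp [mul_comm]
    have e2 : Ex (wo ((864000 : ℝ) ^ 2 * r)) (fun o => ∑ z, W o z) ≤
        216000 * (3 * (r / 864000) * Fintype.card ι + 3 * (r / 864000) * Fintype.card ι) := by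
      simp only [hWsum]
      rw [Ex_mul]
      refine mul_le_mul_of_nonneg_left ?_ (by norm_num)
      refine le_trans (Ex_mono w1 (G := fun o => Ex (wt r) (fun t => (alpha ξ η o t : ℝ)) +
        Ex (wt r) (fun t => (alpha ξ (fun i => -η i) o t : ℝ))) fun o => ?_) ?_
      · rw [← Ex_add]
        exact Ex_mono w2 fun t => add_le_add (hwi1 o t) (hwd1 o t)
      · rw [Ex_add]
        exact add_le_add (Ex_alpha ξ η (by norm_num) hr0 hr3 hl)
          (Ex_alpha ξ _ (by norm_num) hr0 hr3 hl)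
    have e3 := mul_le_mul_of_nonneg_left e2 hg
    rw [e1]
    refine (add_le_add le_rfl e3).trans (le_of_eq ?_)
    rw [hr]
    field_simp
    ring
  · intro X Y hX hY hc
    by_cases hO : ∃ i ∈ Oo o, i ∈ X ∧ i ∈ Y
    · exact Or.inl hO
    right
    have hcl : Closed ξ η (X ∩ Y) := by
      intro a ha b hb c hc d hd i x1 x2 x3 x4
      exact mem_inter.2 ⟨hX a (mem_inter.1 ha).1 b (mem_inter.1 hb).1 i x1 x2,
        hY c (mem_inter.1 hc).2 d (mem_inter.1 hd).2 i x3 x4⟩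
    obtain ⟨n, hn⟩ := Nat.exists_eq_add_of_le hc
    obtain ⟨R, hR1, hR2, hR3⟩ := exists_closed_sub hξ (10 * d) n (X ∩ Y) hcl hn
    have hoR : ∀ i ∈ R, o i = false := by
      intro i hi
      by_contra h
      exact hO ⟨i, by simpa [Oo] using h, mem_inter.1 (hR1 hi)⟩
    have := rich_prob hξ hη hR2 hd1 hR3 hoR
      (fun t => ∑ z ∈ X ×ˢ Y, wi o t z + ∑ z ∈ X ×ˢ Y, wd o t z)
      (fun t => add_nonneg (Finset.sum_nonneg fun z _ => hwi0 o t z)
        (Finset.sum_nonneg fun z _ => hwd0 o t z)) (by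
      intro t e h1 h2 h
      have p1 := mem_inter.1 (hR1 h1)
      have p2 := mem_inter.1 (hR1 h2)
      have n1 : 0 ≤ ∑ z ∈ X ×ˢ Y, wi o t z := Finset.sum_nonneg fun z _ => hwi0 o t z
      have n2 : 0 ≤ ∑ z ∈ X ×ˢ Y, wd o t z := Finset.sum_nonneg fun z _ => hwd0 o t z
      rcases h with h | h
      · have h3 := hwi2 o t e h
        have : ∑ z with InBox ξ η e.1 e.2.2 z, wi o t z ≤ ∑ z ∈ X ×ˢ Y, wi o t z := by
          refine Finset.sum_le_sum_of_subset_of_nonneg (fun z hz => ?_) fun z _ _ => hwi0 o t z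
          have hz := (mem_filter.1 hz).2
          exact mem_product.2 ⟨hX _ p1.1 _ p2.1 _ hz.1 hz.2.1, hY _ p1.2 _ p2.2 _ hz.2.2.1 hz.2.2.2⟩
        linarith
      · have h3 := hwd2 o t e h
        have : ∑ z with InBox ξ (fun i => -η i) e.1 e.2.2 z, wd o t z ≤
            ∑ z ∈ X ×ˢ Y, wd o t z := by
          refine Finset.sum_le_sum_of_subset_of_nonneg (fun z hz => ?_) fun z _ _ => hwd0 o t z
          have hz := (mem_filter.1 hz).2
          simp only [InBox] at hz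
          exact mem_product.2 ⟨hX _ p1.1 _ p2.1 _ hz.1 hz.2.1,
            hY _ p2.2 _ p1.2 _ (by omega) (by omega)⟩
        linarith)
    rw [hWsum]
    linarith

theorem exists_int_rank {ι : Type} [Fintype ι] (x : ι → ℝ) :
    ∃ ξ : ι → ℤ, Function.Injective ξ ∧ ∀ i j, ξ i ≤ ξ j → x i ≤ x j := by
  classical
  let N := Fintype.card ι
  let e : ι → ℕ := fun i => (Fintype.equivFin ι i : ℕ)
  have he : ∀ i, e i < N := fun i => (Fintype.equivFin ι i).2
  have hei : Function.Injective e := fun a b h => (Fintype.equivFin ι).injective (Fin.ext h)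
  let rk : ι → ℕ := fun i => (univ.filter fun j => x j < x i).card
  have hrk : ∀ i j, x j < x i → rk j < rk i := by
    intro i j h
    refine Finset.card_lt_card ⟨fun k hk => ?_, fun hs => ?_⟩
    · simp only [mem_filter, mem_univ, true_and] at hk ⊢
      exact hk.trans h
    · have := hs (mem_filter.2 ⟨mem_univ j, h⟩)
      simp at this
  refine ⟨fun i => ((N * rk i + e i : ℕ) : ℤ), fun a b h => ?_, fun i j h => ?_⟩
  · have h1 : N * rk a + e a = N * rk b + e b := by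
      beta_reduce at h
      exact_mod_cast h
    have h2 := congrArg (· % N) h1
    simp only [Nat.mul_add_mod, Nat.mod_eq_of_lt (he a), Nat.mod_eq_of_lt (he b)] at h2
    exact hei h2
  · by_contra hc
    have h1 : N * rk i + e i ≤ N * rk j + e j := by
      beta_reduce at h
      exact_mod_cast h
    have h2 := hrk i j (not_le.1 hc)
    have h3 : N * (rk j + 1) ≤ N * rk i := Nat.mul_le_mul_left _ h2
    have h4 := he j
    rw [mul_add, mul_one] at h3
    omega

/-- Membership in the closed rectangle with corners `p` and `q`. -/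
def InR (p q z : ℝ × ℝ) : Prop := p.1 ≤ z.1 ∧ z.1 ≤ q.1 ∧ p.2 ≤ z.2 ∧ z.2 ≤ q.2

noncomputable instance (p q z : ℝ × ℝ) : Decidable (InR p q z) := by
  unfold InR; infer_instance

/-- The piercing property with ratio `g` on the grid `Γ`. -/
def Net (Γ : Finset (ℝ × ℝ)) (g : ℝ) : Prop :=
  ∀ μ : ℝ × ℝ → ℝ, (∀ z, 0 ≤ μ z) → ∃ Z : Finset (ℝ × ℝ), (Z.card : ℝ) ≤ g * ∑ z ∈ Γ, μ z ∧
    ∀ p q : ℝ × ℝ, 1 ≤ ∑ z ∈ Γ with InR p q z, μ z → ∃ y ∈ Z, InR p q y

theorem net_small {Γ : Finset (ℝ × ℝ)} {g : ℝ} (hg : 0 ≤ g) {μ : ℝ × ℝ → ℝ} (hμ : ∀ z, 0 ≤ μ z)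
    (hT : ∑ z ∈ Γ, μ z < 1) : ∃ Z : Finset (ℝ × ℝ), (Z.card : ℝ) ≤ g * ∑ z ∈ Γ, μ z ∧
    ∀ p q : ℝ × ℝ, 1 ≤ ∑ z ∈ Γ with InR p q z, μ z → ∃ y ∈ Z, InR p q y := by
  refine ⟨∅, by simpa using mul_nonneg hg (Finset.sum_nonneg fun z _ => hμ z), fun p q h => ?_⟩
  have : ∑ z ∈ Γ with InR p q z, μ z ≤ ∑ z ∈ Γ, μ z :=
    Finset.sum_le_sum_of_subset_of_nonneg (filter_subset _ _) fun z _ _ => hμ z
  linarith

theorem net_base (Γ : Finset (ℝ × ℝ)) {g : ℝ} (hg : Γ.card ≤ g) : Net Γ g := by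
  intro μ hμ
  have hg0 : 0 ≤ g := le_trans (Nat.cast_nonneg _) hg
  by_cases hT : ∑ z ∈ Γ, μ z < 1
  · exact net_small hg0 hμ hT
  · refine ⟨Γ, by nlinarith [not_lt.1 hT], fun p q h => ?_⟩
    by_contra hc
    push Not at hc
    rw [Finset.filter_false_of_mem hc] at h
    norm_num at h

theorem net_step {Γ : Finset (ℝ × ℝ)} (hΓ : ∀ a ∈ Γ, ∀ b ∈ Γ, (a.1, b.2) ∈ Γ) {g : ℝ}
    (hg : 0 ≤ g) (h : Net Γ g) : Net Γ (864000 ^ 2 / 3 + g / 2) := by
  classical
  intro μ hμ
  by_cases hT : ∑ z ∈ Γ, μ z < 1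
  · exact net_small (by positivity) hμ hT
  have hT := not_lt.1 hT
  set T := ∑ z ∈ Γ, μ z with hTdef
  let d : ℕ := 864000 ^ 2 + Γ.card
  have hd0 : (0 : ℝ) < d := by
    have : 0 < d := by positivity
    exact_mod_cast this
  let m : ℝ × ℝ → ℕ := fun z => ⌈(10 * d : ℝ) * μ z⌉₊
  let ι : Type := Σ z : Γ, Fin (m z)
  let loc : ι → ℝ × ℝ := fun i => i.1.1
  have hloc : ∀ i, loc i ∈ Γ := fun i => i.1.2
  obtain ⟨ξ, hξ, hξm⟩ := exists_int_rank (fun i : ι => (loc i).1)
  obtain ⟨η, hη, hηm⟩ := exists_int_rank (fun i : ι => (loc i).2)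
  obtain ⟨O, w, hw0, hw1, hw2⟩ := core hξ hη d (Nat.le_add_right _ _) g hg
  let π : ι × ι → ℝ × ℝ := fun z => ((loc z.1).1, (loc z.2).2)
  have hπ : ∀ z, π z ∈ Γ := fun z => hΓ _ (hloc z.1) _ (hloc z.2)
  let μ' : ℝ × ℝ → ℝ := fun y => ∑ z with π z = y, w z
  have hμ' : ∀ y, 0 ≤ μ' y := fun y => Finset.sum_nonneg fun z _ => hw0 z
  obtain ⟨Z, hZ1, hZ2⟩ := h μ' hμ'
  have hsum : ∑ y ∈ Γ, μ' y = ∑ z, w z :=
    Finset.sum_fiberwise_of_maps_to (fun z _ => hπ z) w
  have hcard : ∀ P : ℝ × ℝ → Prop, ∀ [DecidablePred P],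
      (univ.filter fun i : ι => P (loc i)).card = ∑ z ∈ Γ with P z, m z := by
    intro P _
    rw [Finset.card_filter, Fintype.sum_sigma, Finset.sum_filter,
      ← Finset.sum_coe_sort Γ (fun z => if P z then m z else 0)]
    refine Finset.sum_congr rfl fun z _ => ?_
    simp only [loc]
    split_ifs <;> simp
  have hN : (Fintype.card ι : ℝ) ≤ 10 * d * (2 * T) := by
    have h1 := hcard (fun _ => True)
    simp only [Finset.filter_true, Finset.card_univ] at h1
    rw [h1]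
    push_cast
    have h2 : ∑ z ∈ Γ, (m z : ℝ) ≤ ∑ z ∈ Γ, ((10 * d : ℝ) * μ z + 1) :=
      Finset.sum_le_sum fun z _ =>
        (Nat.ceil_lt_add_one (mul_nonneg (by positivity) (hμ z))).le
    rw [Finset.sum_add_distrib, ← Finset.mul_sum] at h2
    simp only [Finset.sum_const, nsmul_eq_mul, mul_one] at h2
    have h3 : (Γ.card : ℝ) ≤ d := by
      have : Γ.card ≤ d := Nat.le_add_left _ _
      exact_mod_cast this
    rw [← hTdef] at h2
    nlinarith
  refine ⟨O.image loc ∪ Z, ?_, fun p q hpq => ?_⟩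
  · have h1 : ((O.image loc ∪ Z).card : ℝ) ≤ O.card + Z.card := by
      have := (Finset.card_union_le (O.image loc) Z).trans
        (Nat.add_le_add_right Finset.card_image_le _)
      exact_mod_cast this
    have h2 : (Fintype.card ι : ℝ) / (10 * d) ≤ 2 * T := by
      rw [div_le_iff₀ (by positivity)]
      linarith
    have h3 := mul_le_mul_of_nonneg_left h2
      (show (0 : ℝ) ≤ 864000 ^ 2 / 6 + g / 4 by positivity)
    rw [hsum] at hZ1
    linarith
  · let X : Finset ι := univ.filter fun i => p.1 ≤ (loc i).1 ∧ (loc i).1 ≤ q.1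
    let Y : Finset ι := univ.filter fun i => p.2 ≤ (loc i).2 ∧ (loc i).2 ≤ q.2
    have hXY : X ∩ Y = univ.filter fun i : ι => InR p q (loc i) := by
      ext i
      simp [X, Y, InR, and_assoc]
    rcases hw2 X Y (by
        intro a ha b hb i h1 h2
        simp only [X, mem_filter, mem_univ, true_and] at ha hb ⊢
        exact ⟨ha.1.trans (hξm _ _ h1), (hξm _ _ h2).trans hb.2⟩) (by
        intro a ha b hb i h1 h2
        simp only [Y, mem_filter, mem_univ, true_and] at ha hb ⊢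
        exact ⟨ha.1.trans (hηm _ _ h1), (hηm _ _ h2).trans hb.2⟩) (by
        rw [hXY, hcard (fun z => InR p q z)]
        have h1 : (10 * d : ℝ) * ∑ z ∈ Γ with InR p q z, μ z ≤
            ∑ z ∈ Γ with InR p q z, (m z : ℝ) := by
          rw [Finset.mul_sum]
          exact Finset.sum_le_sum fun z _ => Nat.le_ceil _
        have h2 : (10 * d : ℝ) ≤ ∑ z ∈ Γ with InR p q z, (m z : ℝ) := by nlinarith
        exact_mod_cast h2) with ⟨i, hi, hx, hy⟩ | h1
    · refine ⟨loc i, mem_union_left _ (mem_image_of_mem _ hi), ?_⟩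
      have : i ∈ X ∩ Y := mem_inter.2 ⟨hx, hy⟩
      rw [hXY] at this
      exact (mem_filter.1 this).2
    · obtain ⟨y, hy, hy'⟩ := hZ2 p q (by
        refine h1.trans ?_
        have e : ∑ y ∈ Γ with InR p q y, μ' y = ∑ z with InR p q (π z), w z := by
          rw [← Finset.sum_fiberwise_of_maps_to (s := univ.filter fun z => InR p q (π z))
            (t := Γ.filter fun y => InR p q y) (g := π)
            (fun z hz => mem_filter.2 ⟨hπ z, (mem_filter.1 hz).2⟩)]
          refine Finset.sum_congr rfl fun y hy => ?_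
          refine Finset.sum_congr ?_ fun _ _ => rfl
          ext z
          simp only [mem_filter, mem_univ, true_and]
          exact ⟨fun hz => ⟨hz ▸ (mem_filter.1 hy).2, hz⟩, fun hz => hz.2⟩
        rw [e]
        refine Finset.sum_le_sum_of_subset_of_nonneg (fun z hz => ?_) fun z _ _ => hw0 z
        simp only [mem_product, X, Y, mem_filter, mem_univ, true_and] at hz
        simp only [mem_filter, mem_univ, true_and, InR, π]
        exact ⟨hz.1.1, hz.1.2, hz.2.1, hz.2.2⟩)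
      exact ⟨y, mem_union_right _ hy, hy'⟩

theorem net_mono {Γ : Finset (ℝ × ℝ)} {g g' : ℝ} (hg : g ≤ g') (h : Net Γ g) : Net Γ g' := by
  intro μ hμ
  obtain ⟨Z, h1, h2⟩ := h μ hμ
  exact ⟨Z, h1.trans (mul_le_mul_of_nonneg_right hg (Finset.sum_nonneg fun z _ => hμ z)), h2⟩

/-- Constant integrality gap for piercing axis-parallel rectangles. -/
theorem net_const {Γ : Finset (ℝ × ℝ)} (hΓ : ∀ a ∈ Γ, ∀ b ∈ Γ, (a.1, b.2) ∈ Γ) :
    Net Γ (864000 ^ 2) := by
  have key : ∀ n : ℕ, Net Γ (864000 ^ 2 + n) → Net Γ (864000 ^ 2) := by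
    intro n
    induction n with
    | zero => simp
    | succ n ih =>
      intro h
      refine ih (net_mono ?_ (net_step hΓ (by positivity) h))
      push_cast
      have : (0 : ℝ) ≤ n := Nat.cast_nonneg n
      norm_num
      linarith
  exact key Γ.card (net_base Γ (by linarith [show (0 : ℝ) ≤ 864000 ^ 2 by norm_num]))

/-- Weak nets of linear size for axis-parallel rectangles. -/
theorem weak_net (A : Finset (ℝ × ℝ)) (k : ℕ) (hk : 1 ≤ k) :
    ∃ Z : Finset (ℝ × ℝ), (Z.card : ℝ) ≤ 864000 ^ 2 * (A.card / k) ∧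
      ∀ p q : ℝ × ℝ, k ≤ (A.filter fun z => InR p q z).card → ∃ y ∈ Z, InR p q y := by
  classical
  let Γ : Finset (ℝ × ℝ) := A.image Prod.fst ×ˢ A.image Prod.snd
  have hΓ : ∀ a ∈ Γ, ∀ b ∈ Γ, (a.1, b.2) ∈ Γ := fun a ha b hb =>
    mem_product.2 ⟨(mem_product.1 ha).1, (mem_product.1 hb).2⟩
  have hA : A ⊆ Γ := fun a ha => mem_product.2 ⟨mem_image_of_mem _ ha, mem_image_of_mem _ ha⟩
  have hk0 : (0 : ℝ) < k := by exact_mod_cast hk
  obtain ⟨Z, h1, h2⟩ := net_const hΓ (fun z => if z ∈ A then 1 / k else 0)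
    (fun z => by split_ifs <;> positivity)
  refine ⟨Z, ?_, fun p q h => h2 p q ?_⟩
  · rw [Finset.sum_ite_mem, Finset.inter_eq_right.2 hA] at h1
    simpa [div_eq_mul_inv] using h1
  · rw [Finset.sum_ite_mem]
    have : (Γ.filter fun z => InR p q z) ∩ A = A.filter fun z => InR p q z := by
      ext z
      simp only [mem_inter, mem_filter]
      exact ⟨fun hz => ⟨hz.2, hz.1.2⟩, fun hz => ⟨⟨hA hz.1, hz.2⟩, hz.1⟩⟩
    rw [this, Finset.sum_const, nsmul_eq_mul, mul_one_div, le_div_iff₀ hk0, one_mul]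
    exact_mod_cast h

end Pool.Agent.P.MP_b9c629_co
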