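import Mathlib
import Pool.Agent.P.MP_b9c629_co.Main
import Pool.Agent.P.MP_b9c629_co.Dil

/-! Half-size hitting sets for rectangles with at least 333 points. -/

set_option autoImplicit false
set_option linter.unusedSectionVars false

namespace Pool.Agent.P.MP_b9c629_co

open Finset

variable {ι : Type} [Fintype ι] [DecidableEq ι]

/-- The points in a rectangle. -/
def bx (ξ η : ι → ℤ) (x1 x2 y1 y2 : ℤ) : Finset ι :=
  univ.filter fun p => x1 ≤ ξ p ∧ ξ p ≤ x2 ∧ y1 ≤ η p ∧ η p ≤ y2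

theorem mem_bx {ξ η : ι → ℤ} {x1 x2 y1 y2 : ℤ} {p : ι} :
    p ∈ bx ξ η x1 x2 y1 y2 ↔ x1 ≤ ξ p ∧ ξ p ≤ x2 ∧ y1 ≤ η p ∧ η p ≤ y2 := by simp [bx]

/-- A region with lower left corner `a`, top point `V`, right side through `U`, holding exactly
`m` points and none of `O`. -/
structure Reg (ξ η : ι → ℤ) (m : ℕ) (O : Finset ι) (a U V : ι) : Prop where
  x1 : ξ a ≤ ξ V
  x2 : ξ V ≤ ξ U
  y1 : η a ≤ η V
  cd : (bx ξ η (ξ a) (ξ U) (η a) (η V)).card = m
  dj : Disjoint (bx ξ η (ξ a) (ξ U) (η a) (η V)) O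

/-- There are no `t` pairwise disjoint regions. -/
def Sparse (ξ η : ι → ℤ) (m : ℕ) (O : Finset ι) (t : ℕ) : Prop :=
  ∀ (F : Finset (ℤ × ℤ × ℤ × ℤ)) (a U V : ℤ × ℤ × ℤ × ℤ → ι),
    (∀ j ∈ F, Reg ξ η m O (a j) (U j) (V j)) → (∀ i ∈ F, ∀ j ∈ F, i ≠ j →
      ¬ (ξ (a j) ≤ ξ (U i) ∧ ξ (a i) ≤ ξ (U j) ∧ η (a j) ≤ η (V i) ∧ η (a i) ≤ η (V j))) →
        F.card < t

open Classical in
/-- The points covered by the regions of the matching of `P` and `Q`. -/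
noncomputable def Wset (ξ η : ι → ℤ) (m : ℕ) (P Q : Finset ι) : Finset ι :=
  univ.filter fun i => ∃ M, Valid ξ η P Q M ∧ ∃ e ∈ M, ∃ u,
    (bx ξ η (ξ e.1) u (η e.1) (η e.2)).card = m ∧ i ∈ bx ξ η (ξ e.1) u (η e.1) (η e.2)

theorem not_sparse {ξ η : ι → ℤ} (hη : Function.Injective η) {m : ℕ} (hm : 2 ≤ m) {O : Finset ι}
    {t : ℕ} (h : ¬ Sparse ξ η m O t) : ∃ P Q : Finset ι, P.card = t ∧ Q.card = t ∧
      m * t ≤ (Wset ξ η m P Q).card ∧ Disjoint (Wset ξ η m P Q) O := by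
  simp only [Sparse, not_forall, not_lt] at h
  obtain ⟨F0, a, U, V, h1, h2, h3⟩ := h
  obtain ⟨F, hF, rfl⟩ := exists_subset_card_eq h3
  replace h1 := fun j hj => h1 j (hF hj)
  replace h2 := fun i hi j hj => h2 i (hF hi) j (hF hj)
  have eq : ∀ i ∈ F, ∀ j ∈ F, ∀ p, p ∈ bx ξ η (ξ (a i)) (ξ (U i)) (η (a i)) (η (V i)) →
      p ∈ bx ξ η (ξ (a j)) (ξ (U j)) (η (a j)) (η (V j)) → i = j := fun i hi j hj p p1 p2 => by
    by_contra hn
    have := h2 i hi j hj hn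
    rw [mem_bx] at p1 p2
    omega
  have ma : ∀ j ∈ F, a j ∈ bx ξ η (ξ (a j)) (ξ (U j)) (η (a j)) (η (V j)) := fun j hj =>
    mem_bx.2 ⟨le_rfl, (h1 j hj).x1.trans (h1 j hj).x2, le_rfl, (h1 j hj).y1⟩
  have mV : ∀ j ∈ F, V j ∈ bx ξ η (ξ (a j)) (ξ (U j)) (η (a j)) (η (V j)) := fun j hj =>
    mem_bx.2 ⟨(h1 j hj).x1, (h1 j hj).x2, (h1 j hj).y1, le_rfl⟩
  have hv : Valid ξ η (F.image a) (F.image V) (F.image fun j => (a j, V j)) :=
    { hP := image_image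
      hQ := image_image
      disj := disjoint_left.2 fun p p1 p2 => by
        obtain ⟨i, hi, rfl⟩ := mem_image.1 p1
        obtain ⟨j, hj, e⟩ := mem_image.1 p2
        obtain rfl := eq i hi j hj _ (ma i hi) (e ▸ mV j hj)
        have := card_le_one.2 fun p (p1 : p ∈ bx ξ η (ξ (a i)) (ξ (U i)) (η (a i)) (η (V i))) q
          q1 => hη (by rw [mem_bx, e] at p1 q1; omega)
        rw [(h1 i hi).cd] at this
        omega
      le := forall_mem_image.2 fun j hj => ⟨(h1 j hj).x1, (h1 j hj).y1⟩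
      emp := forall_mem_image.2 fun j hj p hp hb => by
        have : p ∈ bx ξ η (ξ (a j)) (ξ (U j)) (η (a j)) (η (V j)) :=
          mem_bx.2 ⟨hb.1, hb.2.1.trans (h1 j hj).x2, hb.2.2⟩
        refine hp.imp (fun hp => ?_) fun hp => ?_ <;> obtain ⟨i, hi, rfl⟩ := mem_image.1 hp
        exacts [congrArg a (eq i hi j hj _ (ma i hi) this),
          congrArg V (eq i hi j hj _ (mV i hi) this)]
      ncr := forall_mem_image.2 fun i hi => forall_mem_image.2 fun j hj hn hc => by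
        have := h2 i hi j hj fun e => hn (by rw [e])
        obtain ⟨_, _, _, -, -⟩ := h1 i hi
        obtain ⟨_, _, _, -, -⟩ := h1 j hj
        simp only [CR] at hc
        omega }
  refine ⟨F.image a, F.image V, card_image_of_injOn fun i hi j hj e =>
    eq i hi j hj _ (ma i hi) (e ▸ ma j hj), card_image_of_injOn fun i hi j hj e =>
    eq i hi j hj _ (mV i hi) (e ▸ mV j hj), ?_, disjoint_left.2 fun p hp => ?_⟩
  · have := card_biUnion (s := F) (t := fun j => bx ξ η (ξ (a j)) (ξ (U j)) (η (a j)) (η (V j)))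
      fun i hi j hj hn => disjoint_left.2 fun p p1 p2 => hn (eq i hi j hj p p1 p2)
    rw [sum_congr rfl fun j hj => (h1 j hj).cd, sum_const, smul_eq_mul, mul_comm] at this
    refine this ▸ card_le_card (biUnion_subset.2 fun j hj p hp => ?_)
    simp only [Wset, mem_filter, mem_univ, true_and]
    exact ⟨_, hv, _, mem_image_of_mem _ hj, _, (h1 j hj).cd, hp⟩
  · simp only [Wset, mem_filter, mem_univ, true_and] at hp
    obtain ⟨M, hM, e, he, u, c1, c2⟩ := hp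
    rw [valid_unique hM hv] at he
    obtain ⟨j, hj, rfl⟩ := mem_image.1 he
    refine disjoint_left.1 (h1 j hj).dj ?_
    rcases le_total u (ξ (U j)) with hu | hu
    · exact mem_bx.2 ⟨(mem_bx.1 c2).1, (mem_bx.1 c2).2.1.trans hu, (mem_bx.1 c2).2.2⟩
    · rwa [eq_of_subset_of_card_le (fun q hq => mem_bx.2 ⟨(mem_bx.1 hq).1,
        (mem_bx.1 hq).2.1.trans hu, (mem_bx.1 hq).2.2⟩) (c1.trans (h1 j hj).cd.symm).le]

open Classical in
theorem count_bad {ξ η : ι → ℤ} (hη : Function.Injective η) {m : ℕ} (hm : 2 ≤ m) (s t : ℕ) :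
    ((powersetCard s univ).filter fun O => ¬ Sparse ξ η m O t).card ≤
      (Fintype.card ι).choose t ^ 2 * (Fintype.card ι - m * t).choose s := by
  calc _ ≤ (((powersetCard t univ ×ˢ powersetCard t univ).filter
        fun e : Finset ι × Finset ι => m * t ≤ (Wset ξ η m e.1 e.2).card).biUnion
          fun e => powersetCard s (Wset ξ η m e.1 e.2)ᶜ).card := card_le_card fun O hO => by
        obtain ⟨P, Q, h1, h2, h3, h4⟩ := not_sparse hη hm (mem_filter.1 hO).2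
        refine mem_biUnion.2 ⟨(P, Q), by simp [h1, h2, h3], mem_powersetCard.2 ⟨?_,
          (mem_powersetCard.1 (mem_filter.1 hO).1).2⟩⟩
        exact subset_compl_iff_disjoint_left.2 h4
    _ ≤ _ := (card_biUnion_le_card_mul _ _ _ fun e he => by
        rw [card_powersetCard, card_compl]
        exact Nat.choose_le_choose s (Nat.sub_le_sub_left (mem_filter.1 he).2 _)).trans (by
          gcongr
          exact (card_filter_le _ _).trans_eq (by simp [sq]))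

theorem pierce [Nonempty ι] {ξ η : ι → ℤ} (hξ : Function.Injective ξ) {m k t : ℕ} {O : Finset ι}
    (s1 : Sparse ξ η m O (t + 1)) (s2 : Sparse (-ξ) (-η) m O (t + 1)) :
    ∃ Z : Finset (ι × ι), Z.card ≤ (2 * k + 1) * (3 * t) ∧ ∀ a U V L S, Reg ξ η m O a U V →
      Reg (-ξ) (-η) m O a L S → (bx ξ η (ξ L) (ξ U) (η S) (η V)).card ≤ k →
        ∃ z ∈ Z, ξ a ≤ ξ z.1 ∧ ξ z.1 ≤ ξ U ∧ η a ≤ η z.2 ∧ η z.2 ≤ η V := by
  classical
  obtain ⟨B, hB⟩ : ∃ B : Finset (ℤ × ℤ × ℤ × ℤ), ∀ b, b ∈ B ↔ ∃ a U V L S, Reg ξ η m O a U V ∧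
      Reg (-ξ) (-η) m O a L S ∧ (bx ξ η (ξ L) (ξ U) (η S) (η V)).card ≤ k ∧
        b = (ξ a, -ξ U, -η a, η V) :=
    ⟨(univ.image fun e : ι × ι × ι => (ξ e.1, -ξ e.2.1, -η e.1, η e.2.2)).filter _, fun b =>
      mem_filter.trans (and_iff_right_of_imp fun ⟨a, U, V, _, _, _, _, _, e⟩ =>
        mem_image.2 ⟨(a, U, V), mem_univ _, e.symm⟩)⟩
  choose! a U V L S r1 r2 hk hb using fun b => (hB b).1
  have ord : ∀ i ∈ B, ∀ j ∈ B, i ≤ j ↔
      ξ (a i) ≤ ξ (a j) ∧ ξ (U j) ≤ ξ (U i) ∧ η (a j) ≤ η (a i) ∧ η (V i) ≤ η (V j) :=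
    fun i hi j hj => by
      conv_lhs => rw [hb i hi, hb j hj]
      simp only [Prod.mk_le_mk, neg_le_neg_iff]
  have pos : ∀ i ∈ B, ξ (L i) ≤ ξ (a i) ∧ ξ (a i) ≤ ξ (U i) ∧ η (S i) ≤ η (a i) ∧
      η (a i) ≤ η (V i) := fun i hi => ⟨neg_le_neg_iff.1 ((r2 i hi).x1.trans (r2 i hi).x2),
    (r1 i hi).x1.trans (r1 i hi).x2, neg_le_neg_iff.1 (r2 i hi).y1, (r1 i hi).y1⟩
  obtain ⟨c, c1, c2⟩ := chain_cover B ((2 * k + 1) * (3 * t)) fun T hT hI => by
    have ha : ∀ i ∈ T, ∀ j ∈ T, ξ (U i) ≤ ξ (U j) → a i = a j → i = j := fun i hi j hj hu e => by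
      by_contra hn
      have h1 := mt (ord j (hT hj) i (hT hi)).2 (hI j hj i hi (Ne.symm hn))
      have h2 := eq_of_subset_of_card_le (s := bx ξ η (ξ (a i)) (ξ (U i)) (η (a i)) (η (V i)))
        (fun p hp => by rw [mem_bx, e] at *; omega)
        ((r1 j (hT hj)).cd.trans (r1 i (hT hi)).cd.symm).le
      have h3 : V j ∈ bx ξ η (ξ (a j)) (ξ (U j)) (η (a j)) (η (V j)) :=
        mem_bx.2 ⟨(r1 j (hT hj)).x1, (r1 j (hT hj)).x2, (r1 j (hT hj)).y1, le_rfl⟩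
      rw [← h2, mem_bx, e] at h3
      rw [e] at h1
      omega
    have ha' : ∀ i ∈ T, ∀ j ∈ T, a i = a j → i = j := fun i hi j hj e =>
      (le_total _ _).elim (ha i hi j hj · e) fun h => (ha j hj i hi h e.symm).symm
    obtain ⟨T', t1, t2, t3⟩ := thin (fun i j => a j ∈ bx ξ η (ξ (L i)) (ξ (U i)) (η (S i))
      (η (V i))) k T fun i hi => (card_le_card_of_injOn a (fun j hj => (mem_filter.1 hj).2)
        fun x hx y hy => ha' x (mem_filter.1 hx).1 y (mem_filter.1 hy).1).trans (hk i (hT hi))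
    refine t2.trans (Nat.mul_le_mul_left _ ?_)
    simp only [mem_bx] at t3
    have hB' : ∀ i ∈ T', i ∈ B := fun i hi => hT (t1 hi)
    have hx : ∀ i ∈ T', ∀ j ∈ T', i ≠ j → ξ (a i) ≠ ξ (a j) := fun i hi j hj hn e =>
      hn (ha' i (t1 hi) j (t1 hj) (hξ e))
    let X : ℤ × ℤ × ℤ × ℤ → ℤ × ℤ × ℤ × ℤ → Prop := fun i j =>
      ξ (a j) ≤ ξ (U i) ∧ ξ (a i) ≤ ξ (U j) ∧ η (a j) ≤ η (V i) ∧ η (a i) ≤ η (V j)
    let P1 := fun i => ∃ j ∈ T', X i j ∧ ξ (a j) < ξ (a i)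
    let P2 := fun i => ∃ j ∈ T', X i j ∧ ξ (a i) < ξ (a j)
    have b1 := s1 (T'.filter fun i => ¬ P1 i) a U V (fun j hj => r1 j (hB' j (mem_filter.1 hj).1))
      fun i hi j hj hn hX => by
        rw [mem_filter] at hi hj
        rcases lt_or_gt_of_ne (hx i hi.1 j hj.1 hn) with h | h
        exacts [hj.2 ⟨i, hi.1, ⟨hX.2.1, hX.1, hX.2.2.2, hX.2.2.1⟩, h⟩, hi.2 ⟨j, hj.1, hX, h⟩]
    have b2 := s1 (T'.filter fun i => ¬ P2 i) a U V (fun j hj => r1 j (hB' j (mem_filter.1 hj).1))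
      fun i hi j hj hn hX => by
        rw [mem_filter] at hi hj
        rcases lt_or_gt_of_ne (hx i hi.1 j hj.1 hn) with h | h
        exacts [hi.2 ⟨j, hj.1, hX, h⟩, hj.2 ⟨i, hi.1, ⟨hX.2.1, hX.1, hX.2.2.2, hX.2.2.1⟩, h⟩]
    have mid : ∀ i ∈ T', ∀ j ∈ T', P1 i → P2 j → ξ (a j) < ξ (a i) → ξ (L i) ≤ ξ (a j) →
        η (S j) ≤ η (a i) → η (S i) ≤ η (a j) → ξ (L j) ≤ ξ (a i) → False := by
      rintro i hi j hj ⟨i', hi', x1, y1⟩ ⟨j', hj', x2, y2⟩ h1 h2 h3 h4 h5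
      have n1 : i ≠ j := fun e => by rw [e] at h1; omega
      have n2 : i ≠ i' := fun e => by rw [← e] at y1; omega
      have n3 : j ≠ j' := fun e => by rw [← e] at y2; omega
      have e1 := t3 i hi j hj n1
      have e2 := t3 j hj i hi n1.symm
      have e3 := t3 i hi i' hi' n2
      have e4 := t3 i' hi' i hi n2.symm
      have e5 := t3 j hj j' hj' n3
      have e6 := t3 j' hj' j hj n3.symm
      have p1 := pos i (hB' i hi)
      have p2 := pos j (hB' j hj)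
      have p3 := pos i' (hB' i' hi')
      have p4 := pos j' (hB' j' hj')
      simp only [X] at x1 x2
      have q1 : η (V i) < η (a j) ∧ ξ (U j) < ξ (a i) := by omega
      have q2 : η (a i) < η (a i') ∧ ξ (a i') < ξ (L i) := by omega
      have q3 : η (a j') < η (S j) := by omega
      have e7 := t3 i' hi' j hj fun e => by rw [e] at x1; omega
      have e8 := t3 j' hj' i hi fun e => by rw [e] at x2; omega
      exact hI i' (t1 hi') j' (t1 hj') (fun e => by rw [e] at q2; omega)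
        ((ord i' (hB' i' hi') j' (hB' j' hj')).2 (by omega))
    have b3 := s2 (T'.filter fun i => P1 i ∧ P2 i) a L S
      (fun j hj => r2 j (hB' j (mem_filter.1 hj).1)) fun i hi j hj hn hX => by
        simp only [mem_filter, Pi.neg_apply, neg_le_neg_iff] at hi hj hX
        rcases lt_or_gt_of_ne (hx i hi.1 j hj.1 hn) with h | h
        exacts [mid j hj.1 i hi.1 hj.2.1 hi.2.2 h hX.2.1 hX.2.2.1 hX.2.2.2 hX.1,
          mid i hi.1 j hj.1 hi.2.1 hj.2.2 h hX.1 hX.2.2.2 hX.2.2.1 hX.2.1]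
    have b4 := card_filter_add_card_filter_not (s := T') fun i => P1 i ∧ P2 i
    simp only [not_and_or, filter_or] at b4
    have b5 := card_union_le (T'.filter fun i => ¬ P1 i) (T'.filter fun i => ¬ P2 i)
    omega
  choose! x x1 x2 using fun i => exists_max_image (B.filter (c · = i)) fun b => ξ (a b)
  choose! y y1 y2 using fun i => exists_max_image (B.filter (c · = i)) fun b => η (a b)
  refine ⟨(range _).image fun i => (a (x i), a (y i)), card_image_le.trans_eq (card_range _),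
    fun a0 U0 V0 L0 S0 q1 q2 q3 => ?_⟩
  have h0 := (hB _).2 ⟨a0, U0, V0, L0, S0, q1, q2, q3, rfl⟩
  have h1 := hb _ h0
  obtain ⟨b, hb0⟩ : ∃ b, b = (ξ a0, -ξ U0, -η a0, η V0) := ⟨_, rfl⟩
  rw [Prod.mk.injEq, Prod.mk.injEq, Prod.mk.injEq, ← hb0] at h1
  rw [← hb0] at h0
  have h2 : b ∈ B.filter (c · = c b) := mem_filter.2 ⟨h0, rfl⟩
  have h3 := mem_filter.1 (x1 _ ⟨b, h2⟩)
  have h4 := mem_filter.1 (y1 _ ⟨b, h2⟩)
  have h5 := c2 _ h3.1 b h0 h3.2
  have h6 := c2 _ h4.1 b h0 h4.2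
  rw [ord _ h3.1 b h0, ord b h0 _ h3.1] at h5
  rw [ord _ h4.1 b h0, ord b h0 _ h4.1] at h6
  refine ⟨_, mem_image_of_mem _ (mem_range.2 (c1 b h0)), ?_⟩
  have := x2 _ ⟨b, h2⟩ b h2
  have := y2 _ ⟨b, h2⟩ b h2
  have := pos b h0
  have := pos _ h3.1
  have := pos _ h4.1
  dsimp only
  omega

theorem exists_low (f : ι → ℤ) (hf : Function.Injective f) (m n : ℕ) : ∀ Q : Finset ι,
    Q.card = m + 1 + n → ∃ V ∈ Q, (Q.filter (f · ≤ f V)).card = m + 1 := by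
  induction n with
  | zero =>
    intro Q h
    obtain ⟨V, hV, h1⟩ := exists_max_image Q f (card_pos.1 (by omega))
    exact ⟨V, hV, by rwa [filter_true_of_mem h1]⟩
  | succ n ih =>
    intro Q h
    obtain ⟨W, hW, h1⟩ := exists_max_image Q f (card_pos.1 (by omega))
    obtain ⟨V, hV, h2⟩ := ih (Q.erase W) (by rw [card_erase_of_mem hW]; omega)
    have h3 : W ∉ Q.filter (f · ≤ f V) := fun hh => (mem_erase.1 hV).1
      (hf (le_antisymm (h1 V (mem_of_mem_erase hV)) (mem_filter.1 hh).2))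
    rw [filter_erase, erase_eq_of_notMem h3] at h2
    exact ⟨V, mem_of_mem_erase hV, h2⟩

theorem exists_reg {ξ η : ι → ℤ} (hη : Function.Injective η) {R O : Finset ι} (hR : Closed ξ η R)
    (hO : Disjoint R O) {a : ι} (ha : a ∈ R) {m : ℕ}
    (h : m + 1 ≤ (R.filter fun p => ξ a ≤ ξ p ∧ η a ≤ η p).card) :
    ∃ U ∈ R, ∃ V ∈ R, Reg ξ η (m + 1) O a U V := by
  obtain ⟨n, hn⟩ := Nat.exists_eq_add_of_le h
  obtain ⟨V, hV, h1⟩ := exists_low η hη m n _ hn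
  obtain ⟨U, hU, h2⟩ := exists_max_image R ξ ⟨a, ha⟩
  rw [mem_filter] at hV
  have h3 : ∀ p ∈ bx ξ η (ξ a) (ξ U) (η a) (η V), p ∈ R := fun p hp => by
    rw [mem_bx] at hp
    exact hR a ha U hU a ha V hV.1 p hp.1 hp.2.1 hp.2.2.1 hp.2.2.2
  refine ⟨U, hU, V, hV.1, hV.2.1, h2 V hV.1, hV.2.2, h1 ▸ congrArg card (ext fun p => ?_),
    hO.mono_left h3⟩
  have := h3 p
  have := h2 p
  simp only [mem_bx, mem_filter] at *
  tauto

theorem Closed.negx {ξ η : ι → ℤ} {R : Finset ι} (h : Closed ξ η R) : Closed (-ξ) η R :=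
  fun a ha b hb c hc d hd i h1 h2 => h b hb a ha c hc d hd i (neg_le_neg_iff.1 h2)
    (neg_le_neg_iff.1 h1)

theorem Closed.negy {ξ η : ι → ℤ} {R : Finset ι} (h : Closed ξ η R) : Closed ξ (-η) R :=
  fun a ha b hb c hc d hd i h1 h2 h3 h4 => h a ha b hb d hd c hc i h1 h2 (neg_le_neg_iff.1 h4)
    (neg_le_neg_iff.1 h3)

theorem quad {ξ η : ι → ℤ} {R : Finset ι} {a : ι} (ha : a ∈ R) :
    (R.filter fun p => ξ p < ξ a).card + 2 ≤
      (R.filter fun p => (-ξ) a ≤ (-ξ) p ∧ η a ≤ η p).card +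
        (R.filter fun p => (-ξ) a ≤ (-ξ) p ∧ (-η) a ≤ (-η) p).card := by
  rw [← card_union_add_card_inter]
  refine add_le_add (a := _ + 1) (c := 1) ?_ (card_pos.2 ⟨a, by simp [ha]⟩)
  rw [← card_insert_of_notMem (a := a) (by simp)]
  refine card_le_card fun p hp => ?_
  simp only [mem_insert, mem_filter, mem_union, Pi.neg_apply] at hp ⊢
  rcases hp with rfl | hp
  · simp [ha]
  · simp only [hp.1, true_and]
    omega

theorem exists_deep {ξ η : ι → ℤ} (hξ : Function.Injective ξ) (hη : Function.Injective η)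
    {R : Finset ι} {m : ℕ} (h : 4 * (2 * m - 1) < R.card) : ∃ a ∈ R,
      (m + 1 ≤ (R.filter fun p => ξ a ≤ ξ p ∧ η a ≤ η p).card ∧
        m + 1 ≤ (R.filter fun p => (-ξ) a ≤ (-ξ) p ∧ (-η) a ≤ (-η) p).card) ∨
      (m + 1 ≤ (R.filter fun p => ξ a ≤ ξ p ∧ (-η) a ≤ (-η) p).card ∧
        m + 1 ≤ (R.filter fun p => (-ξ) a ≤ (-ξ) p ∧ (- -η) a ≤ (- -η) p).card) := by
  have f1 := few_small ξ hξ R (2 * m - 1)
  have f2 := few_small (-ξ) (neg_injective.comp hξ) R (2 * m - 1)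
  have f3 := few_small η hη R (2 * m - 1)
  have f4 := few_small (-η) (neg_injective.comp hη) R (2 * m - 1)
  obtain ⟨a, ha, h1⟩ := exists_mem_notMem_of_card_lt_card (((card_union_le _ _).trans
    ((add_le_add ((card_union_le _ _).trans (add_le_add f1 f2)) ((card_union_le _ _).trans
      (add_le_add f3 f4))).trans_eq (by ring))).trans_lt h)
  simp only [mem_union, mem_filter, ha, true_and, not_or, not_lt] at h1
  have q1 := quad (ξ := ξ) (η := η) ha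
  have q2 := quad (ξ := -ξ) (η := η) ha
  have q3 := quad (ξ := η) (η := ξ) ha
  have q4 := quad (ξ := -η) (η := ξ) ha
  simp only [neg_neg, and_comm (b := _ ≤ ξ _), and_comm (b := _ ≤ (-ξ) _)] at q2 q3 q4 ⊢
  exact ⟨a, ha, by omega⟩

theorem hit {ξ η : ι → ℤ} (hη : Function.Injective η) {R O : Finset ι} (hR : Closed ξ η R)
    (hO : Disjoint R O) {a : ι} (ha : a ∈ R) {m k : ℕ} (hk : R.card ≤ k) {Z : Finset (ι × ι)}
    (hZ : ∀ a U V L S, Reg ξ η (m + 1) O a U V → Reg (-ξ) (-η) (m + 1) O a L S →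
      (bx ξ η (ξ L) (ξ U) (η S) (η V)).card ≤ k →
        ∃ z ∈ Z, ξ a ≤ ξ z.1 ∧ ξ z.1 ≤ ξ U ∧ η a ≤ η z.2 ∧ η z.2 ≤ η V)
    (h : m + 1 ≤ (R.filter fun p => ξ a ≤ ξ p ∧ η a ≤ η p).card ∧
      m + 1 ≤ (R.filter fun p => (-ξ) a ≤ (-ξ) p ∧ (-η) a ≤ (-η) p).card) :
    ∃ z ∈ Z, ∃ U ∈ R, ∃ V ∈ R, ξ a ≤ ξ z.1 ∧ ξ z.1 ≤ ξ U ∧ η a ≤ η z.2 ∧ η z.2 ≤ η V := by
  obtain ⟨U, hU, V, hV, h1⟩ := exists_reg hη hR hO ha h.1
  obtain ⟨L, hL, S, hS, h2⟩ := exists_reg (neg_injective.comp hη) hR.negx.negy hO ha h.2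
  obtain ⟨z, hz, h3⟩ := hZ a U V L S h1 h2 ((card_le_card fun p hp => by
    rw [mem_bx] at hp
    exact hR L hL U hU S hS V hV p hp.1 hp.2.1 hp.2.2.1 hp.2.2.2).trans hk)
  exact ⟨z, hz, U, hU, V, hV, h3⟩

theorem half_int {ξ η : ι → ℤ} (hξ : Function.Injective ξ) (hη : Function.Injective η)
    (hn : 333 ≤ Fintype.card ι) : ∃ Z : Finset (ι × ι), Z.card ≤ Fintype.card ι / 2 ∧
      ∀ R, Closed ξ η R → 333 ≤ R.card → ∃ z ∈ Z, ∃ a ∈ R, ∃ b ∈ R, ∃ c ∈ R, ∃ d ∈ R,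
        ξ a ≤ ξ z.1 ∧ ξ z.1 ≤ ξ b ∧ η c ≤ η z.2 ∧ η z.2 ≤ η d := by
  classical
  have : Nonempty ι := Fintype.card_pos_iff.1 (by omega)
  have n1 := numeric _ hn
  generalize hs : Fintype.card ι * 59 / 125 + 1 = s at n1
  generalize ht : Fintype.card ι / 160200 = t at n1
  have h1 := neg_injective.comp hη
  have f1 := count_bad (ξ := ξ) hη (m := 43) (by norm_num) s (t + 1)
  have f2 := count_bad (ξ := -ξ) (η := -η) h1 (m := 43) (by norm_num) s (t + 1)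
  have f3 := count_bad (ξ := ξ) (η := -η) h1 (m := 43) (by norm_num) s (t + 1)
  have f4 := count_bad (ξ := -ξ) (η := - -η) (neg_injective.comp h1) (m := 43) (by norm_num) s
    (t + 1)
  obtain ⟨O, hO, h2⟩ := exists_mem_notMem_of_card_lt_card (t := powersetCard s (univ : Finset ι))
    (((card_union_le _ _).trans ((add_le_add ((card_union_le _ _).trans (add_le_add f1 f2))
      ((card_union_le _ _).trans (add_le_add f3 f4))).trans_eq (by ring))).trans_lt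
        (n1.trans_eq (by simp)))
  simp only [mem_union, mem_filter, hO, true_and, not_or, not_not] at h2
  obtain ⟨Z1, z1, y1⟩ := pierce hξ (k := 333) h2.1.1 h2.1.2
  obtain ⟨Z2, z2, y2⟩ := pierce hξ (k := 333) h2.2.1 h2.2.2
  refine ⟨O.image (fun p => (p, p)) ∪ (Z1 ∪ Z2), ?_, fun R0 hR0 hk => ?_⟩
  · have := (card_union_le _ _).trans (add_le_add ((card_image_le (f := fun p => (p, p))).trans_eq
      (mem_powersetCard.1 hO).2) ((card_union_le _ _).trans (add_le_add z1 z2)))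
    omega
  obtain ⟨n, hn⟩ := Nat.exists_eq_add_of_le hk
  obtain ⟨R, r1, r2, r3⟩ := exists_closed_sub hξ 333 n R0 hR0 hn
  by_cases hd : Disjoint R O
  · obtain ⟨a, ha, h | h⟩ := exists_deep hξ hη (R := R) (m := 42) (by omega)
    · obtain ⟨z, hz, U, hU, V, hV, h3⟩ := hit hη r2 hd ha r3.le y1 h
      exact ⟨z, by simp [hz], a, r1 ha, U, r1 hU, a, r1 ha, V, r1 hV, h3⟩
    · obtain ⟨z, hz, U, hU, V, hV, h3⟩ := hit (η := -η) h1 r2.negy hd ha r3.le y2 h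
      exact ⟨z, by simp [hz], a, r1 ha, U, r1 hU, V, r1 hV, a, r1 ha, h3.1, h3.2.1,
        neg_le_neg_iff.1 h3.2.2.2, neg_le_neg_iff.1 h3.2.2.1⟩
  · obtain ⟨p, p1, p2⟩ := not_disjoint_iff.1 hd
    exact ⟨(p, p), mem_union_left _ (mem_image_of_mem _ p2), p, r1 p1, p, r1 p1, p, r1 p1, p,
      r1 p1, by simp⟩

theorem half (A : Finset (ℝ × ℝ)) : ∃ Z : Finset (ℝ × ℝ), Z.card ≤ A.card / 2 ∧
    ∀ p q : ℝ × ℝ, 333 ≤ (A.filter fun z => InR p q z).card → ∃ y ∈ Z, InR p q y := by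
  classical
  by_cases hn : 333 ≤ A.card
  swap
  · exact ⟨∅, by simp, fun p q h => absurd (h.trans (card_filter_le _ _)) hn⟩
  obtain ⟨ξ, hξ, mξ⟩ := exists_int_rank fun i : A => i.1.1
  obtain ⟨η, hη, mη⟩ := exists_int_rank fun i : A => i.1.2
  obtain ⟨Z, h1, h2⟩ := half_int hξ hη (by simpa using hn)
  refine ⟨Z.image fun z => (z.1.1.1, z.2.1.2), card_image_le.trans (by simpa using h1),
    fun p q h => ?_⟩
  obtain ⟨z, hz, a, ha, b, hb, c, hc, d, hd, h3⟩ := h2 (univ.filter fun i : A => InR p q i.1)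
    (fun a ha b hb c hc d hd i x1 x2 x3 x4 => by
      simp only [mem_filter, mem_univ, true_and] at *
      exact ⟨ha.1.trans (mξ _ _ x1), (mξ _ _ x2).trans hb.2.1, hc.2.2.1.trans (mη _ _ x3),
        (mη _ _ x4).trans hd.2.2.2⟩) (by rwa [univ_eq_attach, filter_attach, card_map, card_attach])
  simp only [mem_filter, mem_univ, true_and] at ha hb hc hd
  exact ⟨_, mem_image_of_mem _ hz, ha.1.trans (mξ _ _ h3.1), (mξ _ _ h3.2.1).trans hb.2.1,
    hc.2.2.1.trans (mη _ _ h3.2.2.1), (mη _ _ h3.2.2.2).trans hd.2.2.2⟩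

end Pool.Agent.P.MP_b9c629_co
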